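import Pool.Agent.KingTri.Limit

namespace KingTri

open Finset

/-- bounded conjunction -/
noncomputable def allN (n : ℕ) (f : ℕ → Bool) : Bool :=
  Nat.rec true (fun k ih => cond (f k) ih false) n

lemma allN_spec {n : ℕ} {f : ℕ → Bool} (h : allN n f = true) : ∀ i, i < n → f i = true := by
  induction n with
  | zero => intro i hi; omega
  | succ n ih =>
    have h' : cond (f n) (allN n f) false = true := h
    intro i hi
    cases hf : f n
    · rw [hf] at h'
      simp at h'
    · rw [hf] at h'
      have h2 : allN n f = true := h'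
      by_cases hin : i = n
      · rw [hin, hf]
      · exact ih h2 i (by omega)

/-- pass an element of a list to a continuation -/
noncomputable def withRow (l : List ℕ) : ℕ → (ℕ → Bool) → Bool :=
  List.rec (fun _ _ => false)
    (fun a _ ih i k => Nat.rec (k a) (fun j _ => ih j k) i) l

lemma withRow_spec {l : List ℕ} : ∀ {i : ℕ} {k : ℕ → Bool}, withRow l i k = true →
    k (l.getD i 0) = true := by
  induction l with
  | nil => intro i k h; exact absurd h (by simp [withRow])
  | cons a l ih =>
    intro i k h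
    cases i with
    | zero => exact h
    | succ j =>
      have h' : withRow l j k = true := h
      simpa using ih h'

/-- entry `a` of a packed row -/
def ent (bits P row a : ℕ) : ℕ := Nat.mod (Nat.shiftRight row (Nat.mul bits a)) P

/-- all tests at one place, for a supersolution -/
def bodyU (bits P cng cds W H r0 r1 q0 q1 t u r : ℕ) : Bool :=
  cond (Nat.ble 1 (ent bits P t r)) (cond (Nat.ble 1 (ent bits P u r))
  (cond (Nat.ble
    (Nat.mul cds (Nat.add (Nat.add (ent bits P r0 r) (ent bits P q1 r))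
      (cond (Nat.ble H r) 0 (ent bits P r1 (Nat.add r H)))))
    (Nat.mul cng (ent bits P t (Nat.div r 2))))
  (cond (Nat.ble (Nat.mul cds (ent bits P r0 r))
    (Nat.mul cng (ent bits P t (Nat.div (Nat.add W r) 2))))
  (cond (Nat.ble
    (Nat.mul cds (Nat.add (ent bits P q0 r)
      (cond (Nat.ble H r) 0 (ent bits P q1 (Nat.add r H)))))
    (Nat.mul cng (ent bits P u (Nat.div r 2))))
  (Nat.ble (Nat.mul cds (ent bits P q0 r))
    (Nat.mul cng (ent bits P u (Nat.div (Nat.add W r) 2)))) false) false) false) false) false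

/-- all tests at one place, for a subsolution -/
def bodyL (bits P cng cds W H r0 r1 q0 q1 t u r : ℕ) : Bool :=
  cond (Nat.ble 1 (ent bits P t r)) (cond (Nat.ble 1 (ent bits P u r))
  (cond (Nat.ble (Nat.mul cng (ent bits P t (Nat.div r 2)))
    (Nat.mul cds (Nat.add (Nat.add (ent bits P r0 r) (ent bits P q1 r))
      (cond (Nat.ble H r) 0 (ent bits P r1 (Nat.add r H))))))
  (cond (Nat.ble (Nat.mul cng (ent bits P t (Nat.div (Nat.add W r) 2)))
    (Nat.mul cds (ent bits P r0 r)))
  (cond (Nat.ble (Nat.mul cng (ent bits P u (Nat.div r 2)))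
    (Nat.mul cds (Nat.add (ent bits P q0 r)
      (cond (Nat.ble H r) 0 (ent bits P q1 (Nat.add r H))))))
  (Nat.ble (Nat.mul cng (ent bits P u (Nat.div (Nat.add W r) 2)))
    (Nat.mul cds (ent bits P q0 r))) false) false) false) false) false

/-- the tests for one left window `s`, given the test `body` at one place -/
noncomputable def chkOne (body : ℕ → ℕ → ℕ → ℕ → ℕ → ℕ → ℕ → ℕ → ℕ → ℕ → ℕ → ℕ → ℕ → Bool)
    (bits P cn cd W H G : ℕ) (ML : List ℕ) (s : ℕ) : Bool :=
  cond (Nat.ble 1 (ent bits P G s))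
    (withRow ML (Nat.mul 2 (Nat.mod (Nat.mul 2 s) W)) fun r0 =>
    withRow ML (Nat.succ (Nat.mul 2 (Nat.mod (Nat.mul 2 s) W))) fun r1 =>
    withRow ML (Nat.mul 2 (Nat.mod (Nat.succ (Nat.mul 2 s)) W)) fun q0 =>
    withRow ML (Nat.succ (Nat.mul 2 (Nat.mod (Nat.succ (Nat.mul 2 s)) W))) fun q1 =>
    withRow ML (Nat.mul 2 s) fun t =>
    withRow ML (Nat.succ (Nat.mul 2 s)) fun u =>
    allN W fun r => body bits P (Nat.mul cn (ent bits P G r)) (Nat.mul cd (ent bits P G s))
      W H r0 r1 q0 q1 t u r) false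

/-- the tests for the left windows `off, …, off + len - 1` -/
noncomputable def chkR (body : ℕ → ℕ → ℕ → ℕ → ℕ → ℕ → ℕ → ℕ → ℕ → ℕ → ℕ → ℕ → ℕ → Bool)
    (bits P cn cd W H G : ℕ) (ML : List ℕ) (off len : ℕ) : Bool :=
  allN len fun i => chkOne body bits P cn cd W H G ML (Nat.add off i)

lemma chkR_spec {body : ℕ → ℕ → ℕ → ℕ → ℕ → ℕ → ℕ → ℕ → ℕ → ℕ → ℕ → ℕ → ℕ → Bool}
    {bits P cn cd W H G : ℕ} {ML : List ℕ} {off len : ℕ}
    (h : chkR body bits P cn cd W H G ML off len = true) {s : ℕ} (h1 : off ≤ s)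
    (h2 : s < off + len) : chkOne body bits P cn cd W H G ML s = true := by
  have h3 := allN_spec h (s - off) (by omega)
  have h4 : Nat.add off (s - off) = s := by
    change off + (s - off) = s
    omega
  rwa [h4] at h3

/-- the statement checked, unpacked -/
lemma chk_spec {body : ℕ → ℕ → ℕ → ℕ → ℕ → ℕ → ℕ → ℕ → ℕ → ℕ → ℕ → ℕ → ℕ → Bool}
    {bits P cn cd W H G : ℕ} {ML : List ℕ}
    (h : ∀ s, s < W → chkOne body bits P cn cd W H G ML s = true) :
    ∀ s, s < W → 1 ≤ ent bits P G s ∧ ∀ r, r < W →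
      body bits P (cn * ent bits P G r) (cd * ent bits P G s) W H
        (ML.getD (2 * ((2 * s) % W)) 0) (ML.getD (2 * ((2 * s) % W) + 1) 0)
        (ML.getD (2 * ((2 * s + 1) % W)) 0) (ML.getD (2 * ((2 * s + 1) % W) + 1) 0)
        (ML.getD (2 * s) 0) (ML.getD (2 * s + 1) 0) r = true := by
  intro s hs
  have h1 := h s hs
  unfold chkOne at h1
  rw [Bool.cond_false_right, Bool.and_eq_true] at h1
  obtain ⟨h0, h1⟩ := h1
  refine ⟨Nat.le_of_ble_eq_true h0, ?_⟩
  have h2 := withRow_spec (withRow_spec (withRow_spec (withRow_spec (withRow_spec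
    (withRow_spec h1)))))
  intro r hr
  exact allN_spec h2 r hr

section

variable {bits P cn cd w G : ℕ} {ML : List ℕ}

/-- the real table of the potential -/
noncomputable def Mt (bits P : ℕ) (ML : List ℕ) (b a : ℕ) : ℝ := (ent bits P (ML.getD b 0) a : ℝ)

/-- the real table of the one-body factor -/
noncomputable def gt' (bits P G : ℕ) (s : ℕ) : ℝ := (ent bits P G s : ℝ)

lemma ent_le (hP : 0 < P) (row a : ℕ) : (ent bits P row a : ℝ) ≤ P := by
  have : ent bits P row a < P := Nat.mod_lt _ hP
  exact_mod_cast this.le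

lemma cond_ble (H r x : ℕ) : cond (Nat.ble H r) 0 x = if r < H then x else 0 := by
  by_cases h : r < H
  · rw [if_pos h]
    have : Nat.ble H r = false := by
      rw [Bool.eq_false_iff]
      intro h'
      exact absurd (Nat.le_of_ble_eq_true h') (by omega)
    rw [this]
    rfl
  · rw [if_neg h]
    have : Nat.ble H r = true := Nat.ble_eq_true_of_le (by omega)
    rw [this]
    rfl

theorem super_of_chk (hcd : 0 < cd)
    (h : ∀ s, s < 2 ^ w → chkOne bodyU bits P cn cd (2 ^ w) (2 ^ (w - 1)) G ML s = true) :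
    (∀ s, s < 2 ^ w → 1 ≤ gt' bits P G s) ∧
    (∀ b a, b < 2 ^ (w + 1) → a < 2 ^ w → 1 ≤ Mt bits P ML b a) ∧
    (∀ s p a r, s < 2 ^ w → p < 2 → a < 2 → r < 2 ^ w →
      gt' bits P G s * locSum w (Mt bits P ML) s p a r ≤
        ((cn : ℝ) / cd) * (Mt bits P ML (2 * s + p) ((a * 2 ^ w + r) / 2) * gt' bits P G r)) := by
  have key := chk_spec h
  refine ⟨fun s hs => ?_, fun b a hb ha => ?_, ?_⟩
  · have := (key s hs).1
    unfold gt'
    exact_mod_cast this
  · have hs : b / 2 < 2 ^ w := by
      rw [pow_succ] at hb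
      omega
    have h1 := (key (b / 2) hs).2 a ha
    simp only [bodyU, Bool.cond_false_right, Bool.and_eq_true] at h1
    obtain ⟨h2, h3, -⟩ := h1
    have h2' := Nat.le_of_ble_eq_true h2
    have h3' := Nat.le_of_ble_eq_true h3
    unfold Mt
    rcases Nat.even_or_odd' b with ⟨k, hk | hk⟩
    · have : b / 2 = k := by omega
      rw [this] at h2'
      rw [hk]
      exact_mod_cast h2'
    · have : b / 2 = k := by omega
      rw [this] at h3'
      rw [hk]
      exact_mod_cast h3'
  · intro s p a r hs hp ha hr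
    have h1 := (key s hs).2 r hr
    simp only [bodyU, Bool.cond_false_right, Bool.and_eq_true] at h1
    obtain ⟨-, -, h00, h01, h10, h11⟩ := h1
    set r0 := ML.getD (2 * ((2 * s) % 2 ^ w)) 0 with hr0
    set r1 := ML.getD (2 * ((2 * s) % 2 ^ w) + 1) 0 with hr1
    set q0 := ML.getD (2 * ((2 * s + 1) % 2 ^ w)) 0 with hq0
    set q1 := ML.getD (2 * ((2 * s + 1) % 2 ^ w) + 1) 0 with hq1
    set t := ML.getD (2 * s) 0 with ht
    set u := ML.getD (2 * s + 1) 0 with hu
    have k00 : cd * ent bits P G s * (ent bits P r0 r + ent bits P q1 r + if r < 2 ^ (w - 1) then ent bits P r1 (r + 2 ^ (w - 1)) else 0) ≤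
      cn * ent bits P G r * ent bits P t (r / 2) := by
      rw [← cond_ble]
      exact Nat.le_of_ble_eq_true h00
    have k01 : cd * ent bits P G s * ent bits P r0 r ≤ cn * ent bits P G r * ent bits P t ((2 ^ w + r) / 2) := Nat.le_of_ble_eq_true h01
    have k10 : cd * ent bits P G s * (ent bits P q0 r + if r < 2 ^ (w - 1) then ent bits P q1 (r + 2 ^ (w - 1)) else 0) ≤
      cn * ent bits P G r * ent bits P u (r / 2) := by
      rw [← cond_ble]
      exact Nat.le_of_ble_eq_true h10
    have k11 : cd * ent bits P G s * ent bits P q0 r ≤ cn * ent bits P G r * ent bits P u ((2 ^ w + r) / 2) := Nat.le_of_ble_eq_true h11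
    have hcd' : (0 : ℝ) < cd := by exact_mod_cast hcd
    rw [div_mul_eq_mul_div, le_div_iff₀ hcd']
    have c00 := (Nat.cast_le (α := ℝ)).2 k00
    have c01 := (Nat.cast_le (α := ℝ)).2 k01
    have c10 := (Nat.cast_le (α := ℝ)).2 k10
    have c11 := (Nat.cast_le (α := ℝ)).2 k11
    push_cast at c00 c01 c10 c11
    unfold locSum Mt gt'
    rcases (by omega : p = 0 ∨ p = 1) with hp0 | hp1
    · subst hp0
      rcases (by omega : a = 0 ∨ a = 1) with ha0 | ha1
      · subst ha0
        simp only [Nat.add_zero, true_and, and_self, if_true, Nat.zero_mul, Nat.zero_add]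
        rw [← hr0, ← hr1, ← hq1, ← ht]
        linarith
      · subst ha1
        simp only [Nat.add_zero, one_ne_zero, false_and, if_false, Nat.one_mul, add_zero]
        rw [← hr0, ← ht]
        linarith
    · subst hp1
      rcases (by omega : a = 0 ∨ a = 1) with ha0 | ha1
      · subst ha0
        simp only [one_ne_zero, and_false, if_false, true_and, Nat.zero_mul, Nat.zero_add,
          add_zero]
        rw [← hq0, ← hq1, ← hu]
        linarith
      · subst ha1
        simp only [one_ne_zero, false_and, if_false, Nat.one_mul, add_zero]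
        rw [← hq0, ← hu]
        linarith

theorem sub_of_chk (hcd : 0 < cd)
    (h : ∀ s, s < 2 ^ w → chkOne bodyL bits P cn cd (2 ^ w) (2 ^ (w - 1)) G ML s = true) :
    (∀ s, s < 2 ^ w → 1 ≤ gt' bits P G s) ∧
    (∀ b a, b < 2 ^ (w + 1) → a < 2 ^ w → 1 ≤ Mt bits P ML b a) ∧
    (∀ s p a r, s < 2 ^ w → p < 2 → a < 2 → r < 2 ^ w →
      ((cn : ℝ) / cd) * (Mt bits P ML (2 * s + p) ((a * 2 ^ w + r) / 2) * gt' bits P G r) ≤
        gt' bits P G s * locSum w (Mt bits P ML) s p a r) := by
  have key := chk_spec h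
  refine ⟨fun s hs => ?_, fun b a hb ha => ?_, ?_⟩
  · have := (key s hs).1
    unfold gt'
    exact_mod_cast this
  · have hs : b / 2 < 2 ^ w := by
      rw [pow_succ] at hb
      omega
    have h1 := (key (b / 2) hs).2 a ha
    simp only [bodyL, Bool.cond_false_right, Bool.and_eq_true] at h1
    obtain ⟨h2, h3, -⟩ := h1
    have h2' := Nat.le_of_ble_eq_true h2
    have h3' := Nat.le_of_ble_eq_true h3
    unfold Mt
    rcases Nat.even_or_odd' b with ⟨k, hk | hk⟩
    · have : b / 2 = k := by omega
      rw [this] at h2'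
      rw [hk]
      exact_mod_cast h2'
    · have : b / 2 = k := by omega
      rw [this] at h3'
      rw [hk]
      exact_mod_cast h3'
  · intro s p a r hs hp ha hr
    have h1 := (key s hs).2 r hr
    simp only [bodyL, Bool.cond_false_right, Bool.and_eq_true] at h1
    obtain ⟨-, -, h00, h01, h10, h11⟩ := h1
    set r0 := ML.getD (2 * ((2 * s) % 2 ^ w)) 0 with hr0
    set r1 := ML.getD (2 * ((2 * s) % 2 ^ w) + 1) 0 with hr1
    set q0 := ML.getD (2 * ((2 * s + 1) % 2 ^ w)) 0 with hq0
    set q1 := ML.getD (2 * ((2 * s + 1) % 2 ^ w) + 1) 0 with hq1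
    set t := ML.getD (2 * s) 0 with ht
    set u := ML.getD (2 * s + 1) 0 with hu
    have k00 : cn * ent bits P G r * ent bits P t (r / 2) ≤
      cd * ent bits P G s * (ent bits P r0 r + ent bits P q1 r + if r < 2 ^ (w - 1) then ent bits P r1 (r + 2 ^ (w - 1)) else 0) := by
      rw [← cond_ble]
      exact Nat.le_of_ble_eq_true h00
    have k01 : cn * ent bits P G r * ent bits P t ((2 ^ w + r) / 2) ≤ cd * ent bits P G s * ent bits P r0 r := Nat.le_of_ble_eq_true h01
    have k10 : cn * ent bits P G r * ent bits P u (r / 2) ≤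
      cd * ent bits P G s * (ent bits P q0 r + if r < 2 ^ (w - 1) then ent bits P q1 (r + 2 ^ (w - 1)) else 0) := by
      rw [← cond_ble]
      exact Nat.le_of_ble_eq_true h10
    have k11 : cn * ent bits P G r * ent bits P u ((2 ^ w + r) / 2) ≤ cd * ent bits P G s * ent bits P q0 r := Nat.le_of_ble_eq_true h11
    have hcd' : (0 : ℝ) < cd := by exact_mod_cast hcd
    rw [div_mul_eq_mul_div, div_le_iff₀ hcd']
    have c00 := (Nat.cast_le (α := ℝ)).2 k00
    have c01 := (Nat.cast_le (α := ℝ)).2 k01
    have c10 := (Nat.cast_le (α := ℝ)).2 k10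
    have c11 := (Nat.cast_le (α := ℝ)).2 k11
    push_cast at c00 c01 c10 c11
    unfold locSum Mt gt'
    rcases (by omega : p = 0 ∨ p = 1) with hp0 | hp1
    · subst hp0
      rcases (by omega : a = 0 ∨ a = 1) with ha0 | ha1
      · subst ha0
        simp only [Nat.add_zero, true_and, and_self, if_true, Nat.zero_mul, Nat.zero_add]
        rw [← hr0, ← hr1, ← hq1, ← ht]
        linarith
      · subst ha1
        simp only [Nat.add_zero, one_ne_zero, false_and, if_false, Nat.one_mul, add_zero]
        rw [← hr0, ← ht]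
        linarith
    · subst hp1
      rcases (by omega : a = 0 ∨ a = 1) with ha0 | ha1
      · subst ha0
        simp only [one_ne_zero, and_false, if_false, true_and, Nat.zero_mul, Nat.zero_add,
          add_zero]
        rw [← hq0, ← hq1, ← hu]
        linarith
      · subst ha1
        simp only [one_ne_zero, false_and, if_false, Nat.one_mul, add_zero]
        rw [← hq0, ← hu]
        linarith

end

end KingTri
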