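import Pool.Agent.KingTri.Defs

namespace KingTri

open Finset

lemma tile_ge (L : ℝ × ℝ →ₗ[ℝ] ℝ) (c : Cell) (r : ℝ) (h : ∀ v ∈ corners c, r ≤ L (pos v)) :
    ∀ x ∈ tile c, r ≤ L x := by
  intro x hx
  have : convexHull ℝ (pos '' (corners c : Set (ℕ × ℕ))) ⊆ {x | r ≤ L x} := by
    refine convexHull_min ?_ (convex_halfSpace_ge L.isLinear r)
    rintro _ ⟨v, hv, rfl⟩
    exact h v (by simpa using hv)
  exact this hx

lemma tile_le (L : ℝ × ℝ →ₗ[ℝ] ℝ) (c : Cell) (r : ℝ) (h : ∀ v ∈ corners c, L (pos v) ≤ r) :
    ∀ x ∈ tile c, L x ≤ r := by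
  intro x hx
  have : convexHull ℝ (pos '' (corners c : Set (ℕ × ℕ))) ⊆ {x | L x ≤ r} := by
    refine convexHull_min ?_ (convex_halfSpace_le L.isLinear r)
    rintro _ ⟨v, hv, rfl⟩
    exact h v (by simpa using hv)
  exact this hx

/-- second affine coordinate -/
noncomputable def LB : ℝ × ℝ →ₗ[ℝ] ℝ := (2 / √3) • LinearMap.snd ℝ ℝ ℝ

/-- first affine coordinate -/
noncomputable def LA : ℝ × ℝ →ₗ[ℝ] ℝ := LinearMap.fst ℝ ℝ ℝ - (1 / √3) • LinearMap.snd ℝ ℝ ℝ

lemma LB_pos (v : ℕ × ℕ) : LB (pos v) = v.2 := by
  have h3 : (√3 : ℝ) ≠ 0 := by positivity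
  simp only [LB, pos, LinearMap.smul_apply, LinearMap.snd_apply, smul_eq_mul]
  field_simp

lemma LA_pos (v : ℕ × ℕ) : LA (pos v) = v.1 := by
  have h3 : (√3 : ℝ) ≠ 0 := by positivity
  simp only [LA, pos, LinearMap.sub_apply, LinearMap.fst_apply, LinearMap.smul_apply,
    LinearMap.snd_apply, smul_eq_mul]
  field_simp
  ring

lemma corners_up (i j : ℕ) : corners (i, j, false) = {(i, j), (i + 1, j), (i, j + 1)} := by
  simp [corners]

lemma corners_down (i j : ℕ) :
    corners (i, j, true) = {(i + 1, j), (i, j + 1), (i + 1, j + 1)} := by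
  simp [corners]

lemma tile_up {i j : ℕ} {x : ℝ × ℝ} (hx : x ∈ tile (i, j, false)) :
    (i : ℝ) ≤ LA x ∧ (j : ℝ) ≤ LB x ∧ LA x + LB x ≤ i + j + 1 := by
  refine ⟨tile_ge LA _ _ ?_ x hx, tile_ge LB _ _ ?_ x hx, ?_⟩
  · intro v hv
    rw [LA_pos]
    rw [corners_up, Finset.mem_insert, Finset.mem_insert, Finset.mem_singleton] at hv
    rcases hv with h | h | h <;> rw [h] <;> push_cast <;> linarith
  · intro v hv
    rw [LB_pos]
    rw [corners_up, Finset.mem_insert, Finset.mem_insert, Finset.mem_singleton] at hv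
    rcases hv with h | h | h <;> rw [h] <;> push_cast <;> linarith
  · have := tile_le (LA + LB) (i, j, false) (i + j + 1) ?_ x hx
    · simpa using this
    · intro v hv
      rw [LinearMap.add_apply, LA_pos, LB_pos]
      rw [corners_up, Finset.mem_insert, Finset.mem_insert, Finset.mem_singleton] at hv
      rcases hv with h | h | h <;> rw [h] <;> push_cast <;> linarith

lemma tile_down {i j : ℕ} {x : ℝ × ℝ} (hx : x ∈ tile (i, j, true)) :
    LA x ≤ i + 1 ∧ LB x ≤ j + 1 ∧ (i : ℝ) + j + 1 ≤ LA x + LB x := by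
  refine ⟨tile_le LA _ _ ?_ x hx, tile_le LB _ _ ?_ x hx, ?_⟩
  · intro v hv
    rw [LA_pos]
    rw [corners_down, Finset.mem_insert, Finset.mem_insert, Finset.mem_singleton] at hv
    rcases hv with h | h | h <;> rw [h] <;> push_cast <;> linarith
  · intro v hv
    rw [LB_pos]
    rw [corners_down, Finset.mem_insert, Finset.mem_insert, Finset.mem_singleton] at hv
    rcases hv with h | h | h <;> rw [h] <;> push_cast <;> linarith
  · have := tile_ge (LA + LB) (i, j, true) (i + j + 1) ?_ x hx
    · simpa using this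
    · intro v hv
      rw [LinearMap.add_apply, LA_pos, LB_pos]
      rw [corners_down, Finset.mem_insert, Finset.mem_insert, Finset.mem_singleton] at hv
      rcases hv with h | h | h <;> rw [h] <;> push_cast <;> linarith

/-- a common corner from the integer inequalities, two triangles pointing up -/
lemma share_uu {i j k l : ℕ} (a1 : k ≤ i + 1) (a2 : i ≤ k + 1) (a3 : l ≤ j + 1) (a4 : j ≤ l + 1)
    (a5 : k + l ≤ i + j + 1) (a6 : i + j ≤ k + l + 1) :
    ¬ Disjoint (corners (i, j, false)) (corners (k, l, false)) := by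
  intro hd
  rw [Finset.disjoint_left, corners_up, corners_up] at hd
  have h1 := hd (a := (i, j)) (by simp)
  have h2 := hd (a := (i + 1, j)) (by simp)
  have h3 := hd (a := (i, j + 1)) (by simp)
  simp only [Finset.mem_insert, Finset.mem_singleton, Prod.mk.injEq, not_or, not_and] at h1 h2 h3
  omega

lemma share_dd {i j k l : ℕ} (a1 : k ≤ i + 1) (a2 : i ≤ k + 1) (a3 : l ≤ j + 1) (a4 : j ≤ l + 1)
    (a5 : k + l ≤ i + j + 1) (a6 : i + j ≤ k + l + 1) :
    ¬ Disjoint (corners (i, j, true)) (corners (k, l, true)) := by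
  intro hd
  rw [Finset.disjoint_left, corners_down, corners_down] at hd
  have h1 := hd (a := (i + 1, j)) (by simp)
  have h2 := hd (a := (i, j + 1)) (by simp)
  have h3 := hd (a := (i + 1, j + 1)) (by simp)
  simp only [Finset.mem_insert, Finset.mem_singleton, Prod.mk.injEq, not_or, not_and] at h1 h2 h3
  omega

lemma share_ud {i j k l : ℕ} (a1 : i ≤ k + 1) (a2 : j ≤ l + 1) (a3 : k + l ≤ i + j) :
    ¬ Disjoint (corners (i, j, false)) (corners (k, l, true)) := by
  intro hd
  rw [Finset.disjoint_left, corners_up, corners_down] at hd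
  have h1 := hd (a := (i, j)) (by simp)
  have h2 := hd (a := (i + 1, j)) (by simp)
  have h3 := hd (a := (i, j + 1)) (by simp)
  simp only [Finset.mem_insert, Finset.mem_singleton, Prod.mk.injEq, not_or, not_and] at h1 h2 h3
  omega

lemma meet_ud {i j k l : ℕ} {x : ℝ × ℝ} (hc : x ∈ tile (i, j, false)) (hd : x ∈ tile (k, l, true)) :
    ¬ Disjoint (corners (i, j, false)) (corners (k, l, true)) := by
  obtain ⟨h1, h2, h3⟩ := tile_up hc
  obtain ⟨g1, g2, g3⟩ := tile_down hd
  apply share_ud
  · have : (i : ℝ) ≤ k + 1 := by linarith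
    exact_mod_cast this
  · have : (j : ℝ) ≤ l + 1 := by linarith
    exact_mod_cast this
  · have : (k : ℝ) + l ≤ i + j := by linarith
    exact_mod_cast this

/-- closed triangles meet iff they share a corner -/
lemma tiles_meet (c d : Cell) :
    (tile c ∩ tile d).Nonempty ↔ ¬ Disjoint (corners c) (corners d) := by
  constructor
  · rintro ⟨x, hc, hd⟩
    obtain ⟨i, j, b⟩ := c
    obtain ⟨k, l, e⟩ := d
    cases b <;> cases e
    · obtain ⟨h1, h2, h3⟩ := tile_up hc
      obtain ⟨g1, g2, g3⟩ := tile_up hd
      apply share_uu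
      · have : (k : ℝ) ≤ i + 1 := by linarith
        exact_mod_cast this
      · have : (i : ℝ) ≤ k + 1 := by linarith
        exact_mod_cast this
      · have : (l : ℝ) ≤ j + 1 := by linarith
        exact_mod_cast this
      · have : (j : ℝ) ≤ l + 1 := by linarith
        exact_mod_cast this
      · have : (k : ℝ) + l ≤ i + j + 1 := by linarith
        exact_mod_cast this
      · have : (i : ℝ) + j ≤ k + l + 1 := by linarith
        exact_mod_cast this
    · exact meet_ud hc hd
    · rw [disjoint_comm]
      exact meet_ud hd hc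
    · obtain ⟨h1, h2, h3⟩ := tile_down hc
      obtain ⟨g1, g2, g3⟩ := tile_down hd
      apply share_dd
      · have : (k : ℝ) ≤ i + 1 := by linarith
        exact_mod_cast this
      · have : (i : ℝ) ≤ k + 1 := by linarith
        exact_mod_cast this
      · have : (l : ℝ) ≤ j + 1 := by linarith
        exact_mod_cast this
      · have : (j : ℝ) ≤ l + 1 := by linarith
        exact_mod_cast this
      · have : (k : ℝ) + l ≤ i + j + 1 := by linarith
        exact_mod_cast this
      · have : (i : ℝ) + j ≤ k + l + 1 := by linarith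
        exact_mod_cast this
  · intro h
    obtain ⟨v, h1, h2⟩ := Finset.not_disjoint_iff.1 h
    exact ⟨pos v, subset_convexHull ℝ _ ⟨v, by simpa using h1, rfl⟩,
      subset_convexHull ℝ _ ⟨v, by simpa using h2, rfl⟩⟩

/-- The placements in `A` whose cells avoid the lattice points of `F`. -/
noncomputable def plc (A : Finset Cell) (F : Set (ℕ × ℕ)) : Finset (Finset Cell) := by
  classical
  exact A.powerset.filter fun S => (∀ c ∈ S, ∀ d ∈ S, c ≠ d → Disjoint (corners c) (corners d)) ∧
    ∀ c ∈ S, ∀ v ∈ corners c, v ∉ F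

lemma mem_plc {A : Finset Cell} {F : Set (ℕ × ℕ)} {S : Finset Cell} :
    S ∈ plc A F ↔ S ⊆ A ∧ (∀ c ∈ S, ∀ d ∈ S, c ≠ d → Disjoint (corners c) (corners d)) ∧
    ∀ c ∈ S, ∀ v ∈ corners c, v ∉ F := by
  simp [plc]

/-- number of placements -/
noncomputable def np (A : Finset Cell) (F : Set (ℕ × ℕ)) : ℕ := (plc A F).card

lemma kings_eq (n : ℕ) : kings n = np (rhombus n) ∅ := by
  unfold kings np
  congr 1
  ext S
  simp only [mem_plc, Finset.mem_filter, Finset.mem_powerset]
  refine and_congr_right fun _ => ?_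
  simp only [KingAdj, tiles_meet]
  constructor
  · intro h
    refine ⟨fun c hc d hd hcd => ?_, fun c hc v hv => by simp⟩
    by_contra hn
    exact h c hc d hd ⟨hcd, hn⟩
  · rintro ⟨h, -⟩ c hc d hd ⟨hcd, hn⟩
    exact hn (h c hc d hd hcd)

lemma np_empty (F : Set (ℕ × ℕ)) : np ∅ F = 1 := by
  unfold np
  rw [Finset.card_eq_one]
  refine ⟨∅, ?_⟩
  ext S
  rw [mem_plc, Finset.mem_singleton]
  constructor
  · rintro ⟨h, -⟩
    exact Finset.subset_empty.1 h
  · rintro rfl
    simp

lemma np_congr {A : Finset Cell} {F F' : Set (ℕ × ℕ)}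
    (h : ∀ c ∈ A, ∀ v ∈ corners c, v ∈ F ↔ v ∈ F') : np A F = np A F' := by
  unfold np
  congr 1
  ext S
  rw [mem_plc, mem_plc]
  refine and_congr_right fun hS => and_congr_right fun _ => ?_
  refine forall₂_congr fun c hc => forall₂_congr fun v hv => ?_
  rw [h c (hS hc) v hv]

open Classical in
lemma np_insert {A : Finset Cell} {F : Set (ℕ × ℕ)} {c : Cell} (hc : c ∉ A) :
    np (insert c A) F = np A F +
      if ∀ v ∈ corners c, v ∉ F then np A (F ∪ (corners c : Set (ℕ × ℕ))) else 0 := by
  have key : plc (insert c A) F = plc A F ∪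
      (if ∀ v ∈ corners c, v ∉ F then (plc A (F ∪ (corners c : Set (ℕ × ℕ)))).image (insert c)
        else ∅) := by
    ext S
    rw [Finset.mem_union, mem_plc, mem_plc]
    by_cases hcS : c ∈ S
    · have h1 : ¬ (S ⊆ A ∧ (∀ c ∈ S, ∀ d ∈ S, c ≠ d → Disjoint (corners c) (corners d)) ∧
          ∀ c ∈ S, ∀ v ∈ corners c, v ∉ F) := fun h => hc (h.1 hcS)
      rw [or_iff_right h1]
      constructor
      · rintro ⟨h1, h2, h3⟩
        rw [if_pos (h3 c hcS), Finset.mem_image]
        refine ⟨S.erase c, ?_, Finset.insert_erase hcS⟩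
        rw [mem_plc]
        refine ⟨?_, ?_, ?_⟩
        · intro d hd
          rcases Finset.mem_insert.1 (h1 (Finset.mem_of_mem_erase hd)) with rfl | h
          · exact absurd rfl (Finset.ne_of_mem_erase hd)
          · exact h
        · intro d hd e he
          exact h2 d (Finset.mem_of_mem_erase hd) e (Finset.mem_of_mem_erase he)
        · intro d hd v hv hvF
          rcases hvF with hvF | hvF
          · exact h3 d (Finset.mem_of_mem_erase hd) v hv hvF
          · have := h2 d (Finset.mem_of_mem_erase hd) c hcS (Finset.ne_of_mem_erase hd)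
            exact Finset.disjoint_left.1 this hv (by simpa using hvF)
      · intro h
        split_ifs at h with hf
        · rw [Finset.mem_image] at h
          obtain ⟨T, hT, rfl⟩ := h
          rw [mem_plc] at hT
          obtain ⟨h1, h2, h3⟩ := hT
          have hcT : ∀ d ∈ T, Disjoint (corners d) (corners c) := by
            intro d hd
            rw [Finset.disjoint_left]
            intro v hv hv'
            exact h3 d hd v hv (Or.inr (by simpa using hv'))
          refine ⟨Finset.insert_subset_insert _ h1, ?_, ?_⟩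
          · intro d hd e he hde
            rcases Finset.mem_insert.1 hd with hd' | hd'
            · rcases Finset.mem_insert.1 he with he' | he'
              · exact absurd (hd'.trans he'.symm) hde
              · rw [hd']
                exact (hcT e he').symm
            · rcases Finset.mem_insert.1 he with he' | he'
              · rw [he']
                exact hcT d hd'
              · exact h2 d hd' e he' hde
          · intro d hd v hv
            rcases Finset.mem_insert.1 hd with rfl | hd
            · exact hf v hv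
            · exact fun hvF => h3 d hd v hv (Or.inl hvF)
        · simp at h
    · have h1 : ¬ (S ∈ (if ∀ v ∈ corners c, v ∉ F then
          (plc A (F ∪ (corners c : Set (ℕ × ℕ)))).image (insert c) else ∅)) := by
        split_ifs with hf
        · rw [Finset.mem_image]
          rintro ⟨T, -, rfl⟩
          exact hcS (Finset.mem_insert_self _ _)
        · simp
      rw [or_iff_left h1]
      rw [Finset.subset_insert_iff_of_notMem hcS]
  have hdisj : Disjoint (plc A F) (if ∀ v ∈ corners c, v ∉ F then
      (plc A (F ∪ (corners c : Set (ℕ × ℕ)))).image (insert c) else ∅) := by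
    rw [Finset.disjoint_left]
    intro S hS hS'
    split_ifs at hS' with hf
    · rw [Finset.mem_image] at hS'
      obtain ⟨T, -, rfl⟩ := hS'
      exact hc ((mem_plc.1 hS).1 (Finset.mem_insert_self _ _))
    · simp at hS'
  unfold np
  rw [key, Finset.card_union_of_disjoint hdisj]
  congr 1
  split_ifs with hf
  · apply Finset.card_image_of_injOn
    intro S hS T hT hST
    have hS' : c ∉ S := fun h => hc ((mem_plc.1 hS).1 h)
    have hT' : c ∉ T := fun h => hc ((mem_plc.1 hT).1 h)
    have := congrArg (fun U => U.erase c) hST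
    simpa [Finset.erase_insert hS', Finset.erase_insert hT'] using this
  · simp

lemma np_mono {A B : Finset Cell} (h : A ⊆ B) (F : Set (ℕ × ℕ)) : np A F ≤ np B F := by
  apply Finset.card_le_card
  intro S hS
  rw [mem_plc] at hS ⊢
  exact ⟨hS.1.trans h, hS.2⟩

lemma one_le_np (A : Finset Cell) (F : Set (ℕ × ℕ)) : 1 ≤ np A F := by
  rw [← np_empty F]
  exact np_mono (by simp) F

lemma np_le (A : Finset Cell) (F : Set (ℕ × ℕ)) : np A F ≤ 2 ^ A.card := by
  classical
  rw [← Finset.card_powerset]
  apply Finset.card_le_card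
  intro S hS
  rw [Finset.mem_powerset]
  exact (mem_plc.1 hS).1

end KingTri
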