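import Mathlib

/-!
Cells of the regular triangular tiling inside the quadrant spanned by two lattice directions,
king-adjacency (closed triangles meet), and the number of placements of non-attacking kings in the
rhombus of side `n`.
-/

namespace KingTri

open Finset

/-- A cell of the tiling: `(i, j, false)` is the triangle pointing up with lattice corners
`(i,j), (i+1,j), (i,j+1)`, and `(i, j, true)` the triangle pointing down with lattice corners
`(i+1,j), (i,j+1), (i+1,j+1)`. -/
abbrev Cell : Type := ℕ × ℕ × Bool

/-- The three corners of a cell, in lattice coordinates. -/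
def corners (c : Cell) : Finset (ℕ × ℕ) :=
  if c.2.2 then {(c.1 + 1, c.2.1), (c.1, c.2.1 + 1), (c.1 + 1, c.2.1 + 1)}
  else {(c.1, c.2.1), (c.1 + 1, c.2.1), (c.1, c.2.1 + 1)}

/-- The point of the plane with lattice coordinates `(i,j)`: `i (1,0) + j (1/2, √3/2)`. -/
noncomputable def pos (v : ℕ × ℕ) : ℝ × ℝ := ((v.1 : ℝ) + (v.2 : ℝ) / 2, √3 / 2 * (v.2 : ℝ))

/-- The closed triangle of a cell. -/
noncomputable def tile (c : Cell) : Set (ℝ × ℝ) := convexHull ℝ (pos '' (corners c : Set (ℕ × ℕ)))

/-- Two distinct cells are king-adjacent if their closed triangles meet. -/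
def KingAdj (c d : Cell) : Prop := c ≠ d ∧ (tile c ∩ tile d).Nonempty

/-- The `2 n ^ 2` cells of the rhombus of side `n`. -/
def rhombus (n : ℕ) : Finset Cell := range n ×ˢ (range n ×ˢ (univ : Finset Bool))

open Classical in
/-- The number of placements of non-attacking kings contained in the rhombus of side `n`. -/
noncomputable def kings (n : ℕ) : ℕ :=
  ((rhombus n).powerset.filter fun S => ∀ c ∈ S, ∀ d ∈ S, ¬ KingAdj c d).card

end KingTri
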