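import Pool.Agent.KingTri.Rows

namespace KingTri

open Finset Filter Topology

/-- translation of cells -/
def sh (dx dy : ℕ) : Cell ↪ Cell :=
  ⟨fun c => (c.1 + dx, c.2.1 + dy, c.2.2), by
    rintro ⟨a, b, e⟩ ⟨a', b', e'⟩ h
    simp only [Prod.mk.injEq] at h
    obtain ⟨h1, h2, h3⟩ := h
    have h1' : a = a' := by omega
    have h2' : b = b' := by omega
    rw [h1', h2', h3]⟩

lemma corners_sh (dx dy : ℕ) (c : Cell) :
    corners (sh dx dy c) = (corners c).image (fun u => (u.1 + dx, u.2 + dy)) := by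
  obtain ⟨i, j, b⟩ := c
  change corners (i + dx, j + dy, b) = _
  cases b
  · rw [corners_up, corners_up]
    simp only [Finset.image_insert, Finset.image_singleton]
    congr 2
    · congr 1
      ring
    · congr 2
      ring
  · rw [corners_down, corners_down]
    simp only [Finset.image_insert, Finset.image_singleton]
    rw [show i + dx + 1 = i + 1 + dx by ring, show j + dy + 1 = j + 1 + dy by ring]

lemma disjoint_sh (dx dy : ℕ) (c d : Cell) :
    Disjoint (corners (sh dx dy c)) (corners (sh dx dy d)) ↔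
      Disjoint (corners c) (corners d) := by
  rw [corners_sh, corners_sh, Finset.disjoint_image]
  rintro ⟨a, b⟩ ⟨a', b'⟩ h
  simp only [Prod.mk.injEq] at h ⊢
  omega

lemma corners_nonempty (c : Cell) : (corners c).Nonempty := by
  obtain ⟨i, j, b⟩ := c
  cases b
  · rw [corners_up]; simp
  · rw [corners_down]; simp

lemma np_mul {A B C : Finset Cell} {dx dy : ℕ} (hA : A ⊆ C) (hB : ∀ d ∈ B, sh dx dy d ∈ C)
    (hAB : ∀ c ∈ A, ∀ d ∈ B, Disjoint (corners c) (corners (sh dx dy d))) :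
    np A ∅ * np B ∅ ≤ np C ∅ := by
  classical
  have hne : ∀ c ∈ A, ∀ d ∈ B, c ≠ sh dx dy d := by
    rintro c hc d hd rfl
    obtain ⟨v, hv⟩ := corners_nonempty (sh dx dy d)
    exact Finset.disjoint_left.1 (hAB _ hc d hd) hv hv
  unfold np
  rw [← Finset.card_product]
  apply Finset.card_le_card_of_injOn (fun p => p.1 ∪ p.2.map (sh dx dy))
  · rintro ⟨S, T⟩ h
    rw [Finset.mem_coe, Finset.mem_product, mem_plc, mem_plc] at h
    obtain ⟨⟨hS, hS2, -⟩, ⟨hT, hT2, -⟩⟩ := h
    simp only at hS hS2 hT hT2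
    rw [Finset.mem_coe, mem_plc]
    refine ⟨?_, ?_, by simp⟩
    · intro c hc
      rcases Finset.mem_union.1 hc with h | h
      · exact hA (hS h)
      · obtain ⟨d, hd, rfl⟩ := Finset.mem_map.1 h
        exact hB d (hT hd)
    · intro c hc d hd hcd
      rcases Finset.mem_union.1 hc with h | h
      · rcases Finset.mem_union.1 hd with h' | h'
        · exact hS2 c h d h' hcd
        · obtain ⟨d', hd', rfl⟩ := Finset.mem_map.1 h'
          exact hAB c (hS h) d' (hT hd')
      · obtain ⟨c', hc', rfl⟩ := Finset.mem_map.1 h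
        rcases Finset.mem_union.1 hd with h' | h'
        · exact (hAB d (hS h') c' (hT hc')).symm
        · obtain ⟨d', hd', rfl⟩ := Finset.mem_map.1 h'
          rw [disjoint_sh]
          exact hT2 c' hc' d' hd' (fun h => hcd (by rw [h]))
  · rintro ⟨S, T⟩ h ⟨S', T'⟩ h' heq
    rw [Finset.mem_coe, Finset.mem_product, mem_plc, mem_plc] at h h'
    obtain ⟨⟨hS, -, -⟩, ⟨hT, -, -⟩⟩ := h
    obtain ⟨⟨hS', -, -⟩, ⟨hT', -, -⟩⟩ := h'
    simp only at hS hT hS' hT' heq
    have key : ∀ S T : Finset Cell, S ⊆ A → T ⊆ B →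
        (S ∪ T.map (sh dx dy)) ∩ A = S ∧ (S ∪ T.map (sh dx dy)) \ A = T.map (sh dx dy) := by
      intro S T hS hT
      constructor
      · ext c
        rw [Finset.mem_inter, Finset.mem_union]
        constructor
        · rintro ⟨h | h, h2⟩
          · exact h
          · obtain ⟨d, hd, rfl⟩ := Finset.mem_map.1 h
            exact absurd rfl (hne _ h2 d (hT hd))
        · intro h
          exact ⟨Or.inl h, hS h⟩
      · ext c
        rw [Finset.mem_sdiff, Finset.mem_union]
        constructor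
        · rintro ⟨h | h, h2⟩
          · exact absurd (hS h) h2
          · exact h
        · intro h
          refine ⟨Or.inr h, fun h2 => ?_⟩
          obtain ⟨d, hd, rfl⟩ := Finset.mem_map.1 h
          exact absurd rfl (hne _ h2 d (hT hd))
    have e1 := (key S T hS hT).1
    have e2 := (key S T hS hT).2
    rw [heq] at e1 e2
    have e3 : S = S' := e1.symm.trans (key S' T' hS' hT').1
    have e4 : T = T' := Finset.map_injective _ (e2.symm.trans (key S' T' hS' hT').2)
    rw [e3, e4]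

/-- a parallelogram of cells -/
def rect (a b : ℕ) : Finset Cell := range a ×ˢ (range b ×ˢ (univ : Finset Bool))

lemma mem_rect {a b : ℕ} {c : Cell} : c ∈ rect a b ↔ c.1 < a ∧ c.2.1 < b := by
  simp [rect]

lemma mem_corners_le {c : Cell} {v : ℕ × ℕ} (h : v ∈ corners c) :
    c.1 ≤ v.1 ∧ v.1 ≤ c.1 + 1 ∧ c.2.1 ≤ v.2 ∧ v.2 ≤ c.2.1 + 1 := by
  obtain ⟨i, j, b⟩ := c
  cases b
  · rw [corners_up] at h
    simp only [Finset.mem_insert, Finset.mem_singleton] at h
    rcases h with h | h | h <;> rw [h] <;> simp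
  · rw [corners_down] at h
    simp only [Finset.mem_insert, Finset.mem_singleton] at h
    rcases h with h | h | h <;> rw [h] <;> simp

lemma rect_add_left (a a' b : ℕ) :
    np (rect a b) ∅ * np (rect a' b) ∅ ≤ np (rect (a + 1 + a') b) ∅ := by
  apply np_mul (dx := a + 1) (dy := 0)
  · intro c hc
    rw [mem_rect] at hc ⊢
    omega
  · intro d hd
    rw [mem_rect] at hd ⊢
    change d.1 + (a + 1) < a + 1 + a' ∧ d.2.1 + 0 < b
    omega
  · intro c hc d hd
    rw [Finset.disjoint_left]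
    intro v hv hv'
    have h1 := mem_corners_le hv
    have h2 := mem_corners_le hv'
    rw [mem_rect] at hc
    change d.1 + (a + 1) ≤ v.1 ∧ _ at h2
    omega

lemma rect_add_right (a b b' : ℕ) :
    np (rect a b) ∅ * np (rect a b') ∅ ≤ np (rect a (b + 1 + b')) ∅ := by
  apply np_mul (dx := 0) (dy := b + 1)
  · intro c hc
    rw [mem_rect] at hc ⊢
    omega
  · intro d hd
    rw [mem_rect] at hd ⊢
    change d.1 + 0 < a ∧ d.2.1 + (b + 1) < b + 1 + b'
    omega
  · intro c hc d hd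
    rw [Finset.disjoint_left]
    intro v hv hv'
    have h1 := mem_corners_le hv
    have h2 := mem_corners_le hv'
    rw [mem_rect] at hc
    change _ ∧ _ ∧ d.2.1 + (b + 1) ≤ v.2 ∧ _ at h2
    omega

lemma rect_pow_left (m b q : ℕ) :
    np (rect m b) ∅ ^ (q + 1) ≤ np (rect (q * (m + 1) + m) b) ∅ := by
  induction q with
  | zero => simp
  | succ q ih =>
    rw [pow_succ, show (q + 1) * (m + 1) + m = q * (m + 1) + m + 1 + m by ring]
    exact (Nat.mul_le_mul_right _ ih).trans (rect_add_left _ _ _)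

lemma rect_pow_right (a m q : ℕ) :
    np (rect a m) ∅ ^ (q + 1) ≤ np (rect a (q * (m + 1) + m)) ∅ := by
  induction q with
  | zero => simp
  | succ q ih =>
    rw [pow_succ, show (q + 1) * (m + 1) + m = q * (m + 1) + m + 1 + m by ring]
    exact (Nat.mul_le_mul_right _ ih).trans (rect_add_right _ _ _)

lemma kings_rect (n : ℕ) : kings n = np (rect n n) ∅ := kings_eq n

lemma kings_pow (m q : ℕ) : kings m ^ ((q + 1) ^ 2) ≤ kings (q * (m + 1) + m) := by
  rw [kings_rect, kings_rect, sq, pow_mul]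
  exact (Nat.pow_le_pow_left (rect_pow_left m m q) _).trans (rect_pow_right _ _ _)

lemma kings_mono {m n : ℕ} (h : m ≤ n) : kings m ≤ kings n := by
  rw [kings_rect, kings_rect]
  apply np_mono
  intro c hc
  rw [mem_rect] at hc ⊢
  omega

lemma one_le_kings (n : ℕ) : 1 ≤ kings n := by
  rw [kings_rect]
  exact one_le_np _ _

lemma kings_le (n : ℕ) : kings n ≤ 2 ^ (2 * n ^ 2) := by
  rw [kings_rect]
  refine (np_le _ _).trans (le_of_eq ?_)
  congr 1
  simp [rect]
  ring

lemma log_kings_nonneg (n : ℕ) : 0 ≤ Real.log (kings n) :=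
  Real.log_nonneg (by exact_mod_cast one_le_kings n)

lemma log_kings_le (n : ℕ) : Real.log (kings n) ≤ 2 * (n : ℝ) ^ 2 * Real.log 2 := by
  have h1 : (kings n : ℝ) ≤ 2 ^ (2 * n ^ 2) := by exact_mod_cast kings_le n
  have h2 : (0 : ℝ) < kings n := by exact_mod_cast one_le_kings n
  have h3 := Real.log_le_log h2 h1
  rw [Real.log_pow] at h3
  push_cast at h3
  exact h3

/-- normalised logarithm -/
noncomputable def tt (m : ℕ) : ℝ := Real.log (kings m) / ((m : ℝ) + 1) ^ 2

lemma tt_bdd : BddAbove (Set.range tt) := by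
  refine ⟨2 * Real.log 2, ?_⟩
  rintro _ ⟨m, rfl⟩
  rw [tt, div_le_iff₀ (by positivity)]
  have h1 := log_kings_le m
  have h2 : 0 ≤ Real.log 2 := Real.log_nonneg (by norm_num)
  have h3 : (m : ℝ) ^ 2 ≤ ((m : ℝ) + 1) ^ 2 := by
    have : (0 : ℝ) ≤ m := by positivity
    nlinarith
  nlinarith

lemma log_kings_lower {m n : ℕ} (h : m ≤ n) :
    tt m * ((n : ℝ) - m) ^ 2 ≤ Real.log (kings n) := by
  obtain ⟨q, hq1, hq2⟩ : ∃ q, q * (m + 1) + m ≤ n ∧ n < (q + 1) * (m + 1) + m := by
    refine ⟨(n - m) / (m + 1), ?_, ?_⟩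
    · have := Nat.div_mul_le_self (n - m) (m + 1)
      omega
    · have h1 := Nat.div_add_mod (n - m) (m + 1)
      have h2 := Nat.mod_lt (n - m) (Nat.succ_pos m)
      rw [Nat.add_mul, one_mul, mul_comm]
      rw [Nat.succ_eq_add_one] at h2
      omega
  have h1 : (kings m : ℝ) ^ ((q + 1) ^ 2) ≤ kings n := by
    exact_mod_cast (kings_pow m q).trans (kings_mono hq1)
  have h2 : (0 : ℝ) < kings m := by exact_mod_cast one_le_kings m
  have h3 := Real.log_le_log (pow_pos h2 _) h1
  rw [Real.log_pow] at h3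
  push_cast at h3
  refine le_trans ?_ h3
  have h4 : ((n : ℝ) - m) ^ 2 ≤ (((q : ℝ) + 1) * (m + 1)) ^ 2 := by
    have h5 : (n : ℝ) < (q + 1) * (m + 1) + m := by exact_mod_cast hq2
    have h6 : (m : ℝ) ≤ n := by exact_mod_cast h
    apply pow_le_pow_left₀ <;> linarith
  have h5 : 0 ≤ tt m := div_nonneg (log_kings_nonneg m) (by positivity)
  refine (mul_le_mul_of_nonneg_left h4 h5).trans (le_of_eq ?_)
  rw [tt]
  have : (m : ℝ) + 1 ≠ 0 := by positivity
  field_simp

/-- the entropy limit exists -/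
theorem exists_limit : ∃ L : ℝ,
    Tendsto (fun n : ℕ => Real.log (kings n) / (n : ℝ) ^ 2) atTop (𝓝 L) := by
  refine ⟨⨆ m, tt m, ?_⟩
  rw [tendsto_order]
  constructor
  · intro x hx
    obtain ⟨m, hm⟩ := exists_lt_of_lt_ciSup hx
    have h1 : Tendsto (fun n : ℕ => tt m * (1 - (m : ℝ) / n) ^ 2) atTop (𝓝 (tt m)) := by
      have h2 : Tendsto (fun n : ℕ => (m : ℝ) / n) atTop (𝓝 0) :=
        tendsto_const_div_atTop_nhds_zero_nat _
      have h3 := ((tendsto_const_nhds (x := (1 : ℝ))).sub h2).pow 2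
      have h4 := h3.const_mul (tt m)
      simpa using h4
    filter_upwards [h1.eventually (lt_mem_nhds hm), eventually_ge_atTop (m + 1)] with n hn hmn
    refine hn.trans_le ?_
    have hn0 : (0 : ℝ) < n := by
      have : 0 < n := by omega
      exact_mod_cast this
    rw [le_div_iff₀ (by positivity)]
    refine le_trans (le_of_eq ?_) (log_kings_lower (by omega : m ≤ n))
    field_simp
  · intro x hx
    have h1 : Tendsto (fun n : ℕ => (⨆ m, tt m) * (1 + 1 / (n : ℝ)) ^ 2) atTop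
        (𝓝 (⨆ m, tt m)) := by
      have h2 : Tendsto (fun n : ℕ => 1 / (n : ℝ)) atTop (𝓝 0) :=
        tendsto_const_div_atTop_nhds_zero_nat _
      have h3 := ((tendsto_const_nhds (x := (1 : ℝ))).add h2).pow 2
      have h4 := h3.const_mul (⨆ m, tt m)
      simpa using h4
    filter_upwards [h1.eventually (gt_mem_nhds hx), eventually_ge_atTop 1] with n hn hmn
    refine lt_of_le_of_lt ?_ hn
    have hn0 : (0 : ℝ) < n := by
      have : 0 < n := by omega
      exact_mod_cast this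
    rw [div_le_iff₀ (by positivity)]
    have h3 := le_ciSup tt_bdd n
    rw [tt, div_le_iff₀ (by positivity)] at h3
    refine h3.trans (le_of_eq ?_)
    field_simp

lemma limit_le {u : ℕ → ℝ} {L A D E : ℝ}
    (hu : Tendsto (fun n : ℕ => u n / (n : ℝ) ^ 2) atTop (𝓝 L))
    (h : ∀ n : ℕ, u n ≤ A * (n : ℝ) ^ 2 + D * n + E) : L ≤ A := by
  have h2 : Tendsto (fun n : ℕ => 1 / (n : ℝ)) atTop (𝓝 0) :=
    tendsto_const_div_atTop_nhds_zero_nat _
  have h1 : Tendsto (fun n : ℕ => A + D * (1 / (n : ℝ)) + E * (1 / (n : ℝ)) ^ 2) atTop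
      (𝓝 A) := by
    have := ((tendsto_const_nhds (x := A)).add (h2.const_mul D)).add ((h2.pow 2).const_mul E)
    simpa using this
  refine le_of_tendsto_of_tendsto hu h1 ?_
  filter_upwards [eventually_ge_atTop 1] with n hn
  have hn0 : (0 : ℝ) < n := by
    have : 0 < n := by omega
    exact_mod_cast this
  rw [div_le_iff₀ (by positivity)]
  refine (h n).trans (le_of_eq ?_)
  field_simp

lemma le_limit {u : ℕ → ℝ} {L A D E : ℝ}
    (hu : Tendsto (fun n : ℕ => u n / (n : ℝ) ^ 2) atTop (𝓝 L))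
    (h : ∀ n : ℕ, A * (n : ℝ) ^ 2 + D * n + E ≤ u n) : A ≤ L := by
  have h1 := limit_le (u := fun n => - u n) (L := -L) (A := -A) (D := -D) (E := -E) ?_ ?_
  · linarith
  · have := hu.neg
    refine this.congr fun n => ?_
    ring
  · intro n
    have := h n
    linarith

theorem entropy_le {w : ℕ} (hw : 1 ≤ w) {g : ℕ → ℝ} {M : ℕ → ℕ → ℝ} {B c L : ℝ}
    (hc : 0 < c) (hB : 1 ≤ B)
    (hg1 : ∀ s, s < 2 ^ w → 1 ≤ g s) (hgB : ∀ s, s < 2 ^ w → g s ≤ B)
    (hM1 : ∀ b a, b < 2 ^ (w + 1) → a < 2 ^ w → 1 ≤ M b a)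
    (hMB : ∀ b a, b < 2 ^ (w + 1) → a < 2 ^ w → M b a ≤ B)
    (hloc : ∀ s p a r, s < 2 ^ w → p < 2 → a < 2 → r < 2 ^ w →
      g s * locSum w M s p a r ≤ c * (M (2 * s + p) ((a * 2 ^ w + r) / 2) * g r))
    (hL : Tendsto (fun n : ℕ => Real.log (kings n) / (n : ℝ) ^ 2) atTop (𝓝 L)) :
    L ≤ Real.log c := by
  have hB0 : 0 < B := zero_lt_one.trans_le hB
  refine limit_le (D := Real.log c + (w + 3) * Real.log B + Real.log B)
    (E := (w + 3) * Real.log B) hL fun n => ?_
  have h1 := kings_upper hw hc.le hB hg1 hgB hM1 hMB hloc n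
  have h2 : (0 : ℝ) < kings n := by exact_mod_cast one_le_kings n
  have h3 := Real.log_le_log h2 h1
  rw [Real.log_mul (by positivity) (by positivity), Real.log_pow, Real.log_pow,
    Real.log_mul (by positivity) (by positivity), Real.log_mul (by positivity) (by positivity),
    Real.log_pow, Real.log_pow] at h3
  push_cast at h3
  refine h3.trans (le_of_eq ?_)
  ring

theorem le_entropy {w : ℕ} (hw : 1 ≤ w) {g : ℕ → ℝ} {M : ℕ → ℕ → ℝ} {B c L : ℝ}
    (hc : 0 < c) (hB : 1 ≤ B)
    (hg1 : ∀ s, s < 2 ^ w → 1 ≤ g s) (hgB : ∀ s, s < 2 ^ w → g s ≤ B)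
    (hM1 : ∀ b a, b < 2 ^ (w + 1) → a < 2 ^ w → 1 ≤ M b a)
    (hMB : ∀ b a, b < 2 ^ (w + 1) → a < 2 ^ w → M b a ≤ B)
    (hloc : ∀ s p a r, s < 2 ^ w → p < 2 → a < 2 → r < 2 ^ w →
      c * (M (2 * s + p) ((a * 2 ^ w + r) / 2) * g r) ≤ g s * locSum w M s p a r)
    (hL : Tendsto (fun n : ℕ => Real.log (kings n) / (n : ℝ) ^ 2) atTop (𝓝 L)) :
    Real.log c ≤ L := by
  have hB0 : 0 < B := zero_lt_one.trans_le hB
  refine le_limit (D := Real.log c - (w + 3) * Real.log B - Real.log B)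
    (E := - ((w + 3) * Real.log B)) hL fun n => ?_
  have h1 := kings_lower hw hc.le hB hg1 hgB hM1 hMB hloc n
  have h3 := Real.log_le_log (by positivity) h1
  rw [Real.log_mul (by positivity) (by positivity), Real.log_pow, Real.log_pow,
    Real.log_mul (by positivity) (by positivity), Real.log_mul (by positivity) (by positivity),
    Real.log_pow, Real.log_pow, Real.log_inv] at h3
  push_cast at h3
  refine le_trans (le_of_eq ?_) h3
  ring

end KingTri
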