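import Pool.Agent.KingTri.Transfer

namespace KingTri

open Finset

/-- The potential of a profile between two rows. -/
noncomputable def Gam (n w : ℕ) (g : ℕ → ℝ) (h : ℕ → Bool) : ℝ :=
  ∏ i ∈ range (n + w + 3), g (win h i w)

theorem rows_bound {Rel : ℝ → ℝ → Prop}
    (hadd : ∀ a b c d, Rel a b → Rel c d → Rel (a + c) (b + d))
    (hmul : ∀ k a b, 0 ≤ k → Rel a b → Rel (k * a) (k * b))
    (htrans : ∀ a b c, Rel a b → Rel b c → Rel a c) (hrefl : ∀ a, Rel a a)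
    {n w : ℕ} (hw : 1 ≤ w) {g : ℕ → ℝ} {M : ℕ → ℕ → ℝ} {c C1 C2 κ : ℝ}
    (hg : ∀ s, s < 2 ^ w → 0 ≤ g s) (hc : 0 ≤ c) (hκ : 0 ≤ κ) (hC1 : 0 ≤ C1) (hC2 : 0 ≤ C2)
    (hloc : ∀ s p a r, s < 2 ^ w → p < 2 → a < 2 → r < 2 ^ w →
      Rel (g s * locSum w M s p a r) (c * (M (2 * s + p) ((a * 2 ^ w + r) / 2) * g r)))
    (h1 : ∀ h, Rel (Gam n w g h) (C1 * Phi n w g M (n + 1) h))
    (h2 : ∀ h, Rel (Phi n w g M 0 h) (C2 * Gam n w g h))
    (h0 : ∀ h, Rel 1 (κ * Gam n w g h)) :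
    ∀ j y, y + j = n → ∀ F h, Compat n w 0 y F h →
      Rel (np (reg n 0 y) F) (κ * (C1 * c ^ (n + 1) * C2) ^ j * Gam n w g h) := by
  intro j
  induction j with
  | zero =>
    intro y hy F h _
    have : y = n := by omega
    subst this
    rw [reg_last, np_empty]
    simpa using h0 h
  | succ j ih =>
    intro y hy F h H
    have hκ' : 0 ≤ κ * (C1 * c ^ (n + 1) * C2) ^ j :=
      mul_nonneg hκ (pow_nonneg (mul_nonneg (mul_nonneg hC1 (pow_nonneg hc _)) hC2) _)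
    have hend : ∀ F h, Compat n w (n + 1) y F h →
        Rel (np (reg n (n + 1) y) F)
          ((κ * (C1 * c ^ (n + 1) * C2) ^ j * C1) * Phi n w g M (n + 1) h) := by
      intro F h H
      rw [reg_next]
      refine htrans _ _ _ (ih (y + 1) (by omega) F h (compat_row H)) ?_
      have := hmul _ _ _ hκ' (h1 h)
      rwa [← mul_assoc] at this
    have := row_bound hadd hmul htrans hrefl hw (by omega : y < n) hg hc
      (mul_nonneg hκ' hC1) hloc hend (n + 1) 0 (by omega) F h H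
    refine htrans _ _ _ this ?_
    have h3 := hmul (κ * (C1 * c ^ (n + 1) * C2) ^ j * C1 * c ^ (n + 1)) _ _
      (mul_nonneg (mul_nonneg hκ' hC1) (pow_nonneg hc _)) (h2 h)
    have e : κ * (C1 * c ^ (n + 1) * C2) ^ (j + 1) * Gam n w g h =
        κ * (C1 * c ^ (n + 1) * C2) ^ j * C1 * c ^ (n + 1) * (C2 * Gam n w g h) := by
      rw [pow_succ]
      ring
    rw [e]
    exact h3

/-- the profile of the empty configuration -/
def h00 (n w : ℕ) (k : ℕ) : Bool := if k = w ∨ k = n + w + 2 then true else false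

lemma compat_00 (n w : ℕ) : Compat n w 0 0 ∅ (h00 n w) where
  cur i _ h2 := by
    rw [h00, if_neg (by omega)]
    simp
  nxt i h1 := absurd h1 (by omega)
  fre i _ := by simp
  far i j _ := by simp
  padl := by
    rw [h00, if_pos (by omega)]
  padr := by
    rw [h00, if_pos (by omega)]

section bounds

variable {n w : ℕ} {g : ℕ → ℝ} {M : ℕ → ℕ → ℝ} {B : ℝ}

lemma prod_ge_one (hg1 : ∀ s, s < 2 ^ w → 1 ≤ g s) (S : Finset ℕ) (h : ℕ → Bool) :
    1 ≤ ∏ i ∈ S, g (win h i w) := by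
  have : ∏ i ∈ S, (1 : ℝ) ≤ ∏ i ∈ S, g (win h i w) :=
    Finset.prod_le_prod (fun _ _ => zero_le_one) (fun i _ => hg1 _ (win_lt _ _ _))
  simpa using this

lemma prod_le_pow (hg1 : ∀ s, s < 2 ^ w → 1 ≤ g s) (hgB : ∀ s, s < 2 ^ w → g s ≤ B)
    (S : Finset ℕ) (h : ℕ → Bool) :
    ∏ i ∈ S, g (win h i w) ≤ B ^ S.card := by
  have : ∏ i ∈ S, g (win h i w) ≤ ∏ i ∈ S, B :=
    Finset.prod_le_prod (fun i _ => zero_le_one.trans (hg1 _ (win_lt _ _ _)))
      (fun i _ => hgB _ (win_lt _ _ _))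
  simpa using this

lemma Phi_end (h : ℕ → Bool) : Phi n w g M (n + 1) h =
    (∏ i ∈ range (n + 1), g (win h i w)) * M (win h (n + 1) (w + 1)) (win h (n + w + 2) w) := by
  rw [Phi, show n + 1 + w + 2 = n + w + 3 by ring, show n + 1 + w + 1 = n + w + 2 by ring]
  simp

lemma Phi_start (h : ℕ → Bool) : Phi n w g M 0 h =
    M (win h 0 (w + 1)) (win h (w + 1) w) * ∏ i ∈ Ico (w + 2) (n + w + 3), g (win h i w) := by
  rw [Phi]
  simp

lemma Gam_end (h : ℕ → Bool) : Gam n w g h =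
    (∏ i ∈ range (n + 1), g (win h i w)) * ∏ i ∈ Ico (n + 1) (n + w + 3), g (win h i w) := by
  rw [Gam]
  exact (Finset.prod_range_mul_prod_Ico _ (by omega)).symm

lemma Gam_start (h : ℕ → Bool) : Gam n w g h =
    (∏ i ∈ range (w + 2), g (win h i w)) * ∏ i ∈ Ico (w + 2) (n + w + 3), g (win h i w) := by
  rw [Gam]
  exact (Finset.prod_range_mul_prod_Ico _ (by omega)).symm

/-- Upper bound for the number of placements from a local supersolution. -/
theorem kings_upper (hw : 1 ≤ w) {c : ℝ} (hc : 0 ≤ c) (hB : 1 ≤ B)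
    (hg1 : ∀ s, s < 2 ^ w → 1 ≤ g s) (hgB : ∀ s, s < 2 ^ w → g s ≤ B)
    (hM1 : ∀ b a, b < 2 ^ (w + 1) → a < 2 ^ w → 1 ≤ M b a)
    (hMB : ∀ b a, b < 2 ^ (w + 1) → a < 2 ^ w → M b a ≤ B)
    (hloc : ∀ s p a r, s < 2 ^ w → p < 2 → a < 2 → r < 2 ^ w →
      g s * locSum w M s p a r ≤ c * (M (2 * s + p) ((a * 2 ^ w + r) / 2) * g r)) (n : ℕ) :
    (kings n : ℝ) ≤ (B ^ (w + 2) * c ^ (n + 1) * B) ^ n * B ^ (n + w + 3) := by
  have hg0 : ∀ s, s < 2 ^ w → 0 ≤ g s := fun s hs => zero_le_one.trans (hg1 s hs)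
  have hB0 : 0 ≤ B := zero_le_one.trans hB
  have key := rows_bound (Rel := fun a b => a ≤ b) (fun a b c d h1 h2 => add_le_add h1 h2)
    (fun k a b hk h => mul_le_mul_of_nonneg_left h hk) (fun a b c h1 h2 => h1.trans h2)
    (fun a => le_rfl) (n := n) hw hg0 hc (κ := 1) (C1 := B ^ (w + 2)) (C2 := B) zero_le_one
    (pow_nonneg hB0 _) hB0 hloc ?_ ?_ ?_ n 0 (by omega) ∅ (h00 n w) (compat_00 n w)
  · rw [reg_zero] at key
    rw [kings_eq]
    refine key.trans ?_
    rw [one_mul]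
    refine mul_le_mul_of_nonneg_left ?_ ?_
    · have := prod_le_pow hg1 hgB (range (n + w + 3)) (h00 n w)
      rwa [Finset.card_range] at this
    · positivity
  · intro h
    rw [Gam_end, Phi_end]
    have e1 := prod_le_pow hg1 hgB (Ico (n + 1) (n + w + 3)) h
    rw [Nat.card_Ico, show n + w + 3 - (n + 1) = w + 2 by omega] at e1
    have e2 := hM1 (win h (n + 1) (w + 1)) (win h (n + w + 2) w) (win_lt _ _ _) (win_lt _ _ _)
    have e3 := prod_ge_one hg1 (range (n + 1)) h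
    calc (∏ i ∈ range (n + 1), g (win h i w)) * ∏ i ∈ Ico (n + 1) (n + w + 3), g (win h i w)
        ≤ (∏ i ∈ range (n + 1), g (win h i w)) * B ^ (w + 2) :=
          mul_le_mul_of_nonneg_left e1 (by linarith)
      _ = B ^ (w + 2) * ((∏ i ∈ range (n + 1), g (win h i w)) * 1) := by ring
      _ ≤ _ := by
          refine mul_le_mul_of_nonneg_left ?_ (by positivity)
          exact mul_le_mul_of_nonneg_left e2 (by linarith)
  · intro h
    rw [Gam_start, Phi_start]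
    have e2 := hMB (win h 0 (w + 1)) (win h (w + 1) w) (win_lt _ _ _) (win_lt _ _ _)
    have e3 := prod_ge_one hg1 (range (w + 2)) h
    have e4 := prod_ge_one hg1 (Ico (w + 2) (n + w + 3)) h
    refine mul_le_mul e2 ?_ (by linarith) hB0
    exact le_mul_of_one_le_left (by linarith) e3
  · intro h
    rw [one_mul]
    exact prod_ge_one hg1 _ h

/-- Lower bound for the number of placements from a local subsolution. -/
theorem kings_lower (hw : 1 ≤ w) {c : ℝ} (hc : 0 ≤ c) (hB : 1 ≤ B)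
    (hg1 : ∀ s, s < 2 ^ w → 1 ≤ g s) (hgB : ∀ s, s < 2 ^ w → g s ≤ B)
    (hM1 : ∀ b a, b < 2 ^ (w + 1) → a < 2 ^ w → 1 ≤ M b a)
    (hMB : ∀ b a, b < 2 ^ (w + 1) → a < 2 ^ w → M b a ≤ B)
    (hloc : ∀ s p a r, s < 2 ^ w → p < 2 → a < 2 → r < 2 ^ w →
      c * (M (2 * s + p) ((a * 2 ^ w + r) / 2) * g r) ≤ g s * locSum w M s p a r) (n : ℕ) :
    (B⁻¹ ^ (n + w + 3)) * (B⁻¹ * c ^ (n + 1) * B⁻¹ ^ (w + 2)) ^ n ≤ (kings n : ℝ) := by
  have hg0 : ∀ s, s < 2 ^ w → 0 ≤ g s := fun s hs => zero_le_one.trans (hg1 s hs)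
  have hB0 : 0 < B := zero_lt_one.trans_le hB
  have hB1 : 0 ≤ B⁻¹ := by positivity
  have key := rows_bound (Rel := fun a b => b ≤ a) (fun a b c d h1 h2 => add_le_add h1 h2)
    (fun k a b hk h => mul_le_mul_of_nonneg_left h hk) (fun a b c h1 h2 => h2.trans h1)
    (fun a => le_rfl) (n := n) hw hg0 hc (κ := B⁻¹ ^ (n + w + 3)) (C1 := B⁻¹)
    (C2 := B⁻¹ ^ (w + 2)) (by positivity)
    hB1 (by positivity) hloc ?_ ?_ ?_ n 0 (by omega) ∅ (h00 n w) (compat_00 n w)
  · rw [reg_zero] at key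
    rw [kings_eq]
    refine le_trans ?_ key
    have := prod_ge_one hg1 (range (n + w + 3)) (h00 n w)
    exact le_mul_of_one_le_right (by positivity) this
  · intro h
    rw [Gam_end, Phi_end]
    have e1 := prod_ge_one hg1 (Ico (n + 1) (n + w + 3)) h
    have e2 := hMB (win h (n + 1) (w + 1)) (win h (n + w + 2) w) (win_lt _ _ _) (win_lt _ _ _)
    have e3 := prod_ge_one hg1 (range (n + 1)) h
    rw [← mul_assoc, mul_comm B⁻¹, mul_assoc]
    refine mul_le_mul_of_nonneg_left ?_ (by linarith)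
    refine le_trans ?_ e1
    rw [← div_eq_inv_mul, div_le_one hB0]
    exact e2
  · intro h
    rw [Gam_start, Phi_start]
    have e1 := prod_le_pow hg1 hgB (range (w + 2)) h
    rw [Finset.card_range] at e1
    have e2 := hM1 (win h 0 (w + 1)) (win h (w + 1) w) (win_lt _ _ _) (win_lt _ _ _)
    have e4 := prod_ge_one hg1 (Ico (w + 2) (n + w + 3)) h
    rw [← mul_assoc]
    refine mul_le_mul_of_nonneg_right ?_ (by linarith)
    refine le_trans ?_ e2
    rw [inv_pow, ← div_eq_inv_mul, div_le_one (by positivity)]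
    exact e1
  · intro h
    have e1 := prod_le_pow hg1 hgB (range (n + w + 3)) h
    rw [Finset.card_range] at e1
    rw [Gam, inv_pow, ← div_eq_inv_mul, div_le_one (by positivity)]
    exact e1

end bounds

end KingTri
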