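import Pool.Agent.KingTri.Core

namespace KingTri

open Finset

/-- The anchor of a cell: its leftmost corner in its lowest row. -/
def anch (c : Cell) : ℕ × ℕ := if c.2.2 then (c.1 + 1, c.2.1) else (c.1, c.2.1)

/-- The cells of the rhombus whose anchor is at or after `(x,y)` in the row by row order. -/
def reg (n x y : ℕ) : Finset Cell :=
  (rhombus n).filter fun c => y < (anch c).2 ∨ ((anch c).2 = y ∧ x ≤ (anch c).1)

lemma mem_rhombus {n i j : ℕ} {b : Bool} : (i, j, b) ∈ rhombus n ↔ i < n ∧ j < n := by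
  simp [rhombus]

lemma mem_reg_up {n x y i j : ℕ} :
    (i, j, false) ∈ reg n x y ↔ (i < n ∧ j < n) ∧ (y < j ∨ (j = y ∧ x ≤ i)) := by
  simp [reg, mem_rhombus, anch]

lemma mem_reg_down {n x y i j : ℕ} :
    (i, j, true) ∈ reg n x y ↔ (i < n ∧ j < n) ∧ (y < j ∨ (j = y ∧ x ≤ i + 1)) := by
  simp [reg, mem_rhombus, anch]

lemma cell_ext {A B : Finset Cell} (h1 : ∀ i j, (i, j, false) ∈ A ↔ (i, j, false) ∈ B)
    (h2 : ∀ i j, (i, j, true) ∈ A ↔ (i, j, true) ∈ B) : A = B := by
  ext ⟨i, j, b⟩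
  cases b
  · exact h1 i j
  · exact h2 i j

lemma reg_zero (n : ℕ) : reg n 0 0 = rhombus n := by
  apply cell_ext
  · intro i j
    rw [mem_reg_up, mem_rhombus]
    omega
  · intro i j
    rw [mem_reg_down, mem_rhombus]
    omega

lemma reg_next (n y : ℕ) : reg n (n + 1) y = reg n 0 (y + 1) := by
  apply cell_ext
  · intro i j
    rw [mem_reg_up, mem_reg_up]
    omega
  · intro i j
    rw [mem_reg_down, mem_reg_down]
    omega

lemma reg_last (n : ℕ) : reg n 0 n = ∅ := by
  apply cell_ext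
  · intro i j
    rw [mem_reg_up]
    simp
    omega
  · intro i j
    rw [mem_reg_down]
    simp
    omega

lemma corners_up_free {x y : ℕ} {F : Set (ℕ × ℕ)} :
    (∀ v ∈ corners (x, y, false), v ∉ F) ↔ (x, y) ∉ F ∧ (x + 1, y) ∉ F ∧ (x, y + 1) ∉ F := by
  rw [corners_up]
  simp

lemma corners_down_free {x y : ℕ} {F : Set (ℕ × ℕ)} :
    (∀ v ∈ corners (x, y, true), v ∉ F) ↔
      (x + 1, y) ∉ F ∧ (x, y + 1) ∉ F ∧ (x + 1, y + 1) ∉ F := by
  rw [corners_down]
  simp

/-- the occupied points after the triangle pointing up at `(x,y)` was taken -/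
def addU (F : Set (ℕ × ℕ)) (x y : ℕ) : Set (ℕ × ℕ) := F ∪ (corners (x, y, false) : Set (ℕ × ℕ))

/-- the occupied points after the triangle pointing down anchored at `(x,y)` was taken -/
def addD (F : Set (ℕ × ℕ)) (x y : ℕ) : Set (ℕ × ℕ) := F ∪ (corners (x - 1, y, true) : Set (ℕ × ℕ))

lemma mem_addU {F : Set (ℕ × ℕ)} {x y : ℕ} {v : ℕ × ℕ} :
    v ∈ addU F x y ↔ v ∈ F ∨ v = (x, y) ∨ v = (x + 1, y) ∨ v = (x, y + 1) := by
  simp only [addU, corners_up, Set.mem_union, Finset.coe_insert, Finset.coe_singleton,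
    Set.mem_insert_iff, Set.mem_singleton_iff]

lemma mem_addD {F : Set (ℕ × ℕ)} {x y : ℕ} (hx : 1 ≤ x) {v : ℕ × ℕ} :
    v ∈ addD F x y ↔ v ∈ F ∨ v = (x, y) ∨ v = (x - 1, y + 1) ∨ v = (x, y + 1) := by
  simp only [addD, corners_down, Set.mem_union, Finset.coe_insert, Finset.coe_singleton,
    Set.mem_insert_iff, Set.mem_singleton_iff, Nat.sub_add_cancel hx]

open Classical in
/-- One step of the scan. -/
lemma scan_step {n x y : ℕ} (hx : x ≤ n) (hy : y < n) (F : Set (ℕ × ℕ)) :
    np (reg n x y) F = np (reg n (x + 1) y) F +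
      (if 1 ≤ x ∧ (x, y) ∉ F ∧ (x - 1, y + 1) ∉ F ∧ (x, y + 1) ∉ F then
        np (reg n (x + 1) y) (addD F x y) else 0) +
      (if x < n ∧ (x, y) ∉ F ∧ (x + 1, y) ∉ F ∧ (x, y + 1) ∉ F then
        np (reg n (x + 1) y) (addU F x y) else 0) := by
  set B : Finset Cell := if 1 ≤ x then insert (x - 1, y, true) (reg n (x + 1) y)
    else reg n (x + 1) y with hB
  have hregB : reg n x y = if x < n then insert (x, y, false) B else B := by
    apply cell_ext
    · intro i j
      rw [mem_reg_up]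
      by_cases h1 : x < n <;> by_cases h2 : 1 ≤ x <;>
        simp only [h1, h2, if_true, if_false, hB, Finset.mem_insert, Prod.mk.injEq, mem_reg_up,
          and_true, Bool.false_eq_true, and_false, false_or] <;> omega
    · intro i j
      rw [mem_reg_down]
      by_cases h1 : x < n <;> by_cases h2 : 1 ≤ x <;>
        simp only [h1, h2, if_true, if_false, hB, Finset.mem_insert, Prod.mk.injEq, mem_reg_down,
          and_true, Bool.true_eq_false, and_false, false_or] <;> omega
  have hnpB : ∀ G : Set (ℕ × ℕ), np B G = np (reg n (x + 1) y) G +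
      (if 1 ≤ x ∧ (x, y) ∉ G ∧ (x - 1, y + 1) ∉ G ∧ (x, y + 1) ∉ G then
        np (reg n (x + 1) y) (addD G x y) else 0) := by
    intro G
    by_cases h2 : 1 ≤ x
    · rw [hB, if_pos h2, np_insert]
      · congr 1
        apply if_congr _ rfl rfl
        rw [corners_down_free, Nat.sub_add_cancel h2]
        simp [h2]
      · rw [mem_reg_down]
        omega
    · have h3 : ¬ (1 ≤ x ∧ (x, y) ∉ G ∧ (x - 1, y + 1) ∉ G ∧ (x, y + 1) ∉ G) := fun h => h2 h.1
      rw [hB, if_neg h2, if_neg h3, add_zero]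
  rw [hregB]
  by_cases h1 : x < n
  · rw [if_pos h1, np_insert, hnpB F]
    · congr 1
      apply if_congr
      · rw [corners_up_free]
        simp [h1]
      · change np B (addU F x y) = _
        rw [hnpB, if_neg, Nat.add_zero]
        rintro ⟨-, h, -⟩
        exact h (mem_addU.2 (Or.inr (Or.inl rfl)))
      · rfl
    · rw [hB]
      split_ifs with h2
      · rw [Finset.mem_insert, mem_reg_up]
        simp
      · rw [mem_reg_up]
        omega
  · have h3 : ¬ (x < n ∧ (x, y) ∉ F ∧ (x + 1, y) ∉ F ∧ (x, y + 1) ∉ F) := fun h => h1 h.1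
    rw [if_neg h1, hnpB F, if_neg h3, add_zero]

end KingTri
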