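import Pool.Agent.KingTri.Scan

namespace KingTri

open Finset

/-- The code of the window of length `m` starting at `i`, most significant bit first. -/
def win (h : ℕ → Bool) (i : ℕ) : ℕ → ℕ
  | 0 => 0
  | m + 1 => 2 * win h i m + (h (i + m)).toNat

lemma toNat_lt (b : Bool) : b.toNat < 2 := by cases b <;> simp

lemma win_lt (h : ℕ → Bool) (i m : ℕ) : win h i m < 2 ^ m := by
  induction m with
  | zero => simp [win]
  | succ m ih =>
    have := toNat_lt (h (i + m))
    rw [win, pow_succ]
    omega

lemma win_congr {h h' : ℕ → Bool} {i m : ℕ} (H : ∀ j, i ≤ j → j < i + m → h j = h' j) :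
    win h i m = win h' i m := by
  induction m with
  | zero => rfl
  | succ m ih =>
    rw [win, win, ih (fun j h1 h2 => H j h1 (by omega)), H (i + m) (by omega) (by omega)]

lemma win_head (h : ℕ → Bool) (i m : ℕ) :
    win h i (m + 1) = (h i).toNat * 2 ^ m + win h (i + 1) m := by
  induction m with
  | zero => simp [win]
  | succ m ih =>
    rw [win, ih, win, pow_succ]
    have : i + (m + 1) = i + 1 + m := by ring
    rw [this]
    ring

lemma win_tail (h : ℕ → Bool) (i m : ℕ) : win h (i + 1) m = win h i (m + 1) % 2 ^ m := by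
  rw [win_head, mul_comm, Nat.mul_add_mod, Nat.mod_eq_of_lt (win_lt h (i + 1) m)]

lemma win_init (h : ℕ → Bool) (i m : ℕ) : win h i m = win h i (m + 1) / 2 := by
  have := toNat_lt (h (i + m))
  rw [win]
  omega

/-- `h` describes the occupied points `F` at the point `(x,y)` of the scan. -/
structure Compat (n w x y : ℕ) (F : Set (ℕ × ℕ)) (h : ℕ → Bool) : Prop where
  cur : ∀ i, x ≤ i → i ≤ n → ((i, y) ∈ F ↔ h (i + w + 1) = true)
  nxt : ∀ i, i < x → ((i, y + 1) ∈ F ↔ h (i + w + 1) = true)
  fre : ∀ i, x ≤ i → (i, y + 1) ∉ F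
  far : ∀ i j, y + 2 ≤ j → (i, j) ∉ F
  padl : h w = true
  padr : h (n + w + 2) = true

lemma compat_row {n w y : ℕ} {F : Set (ℕ × ℕ)} {h : ℕ → Bool} (H : Compat n w (n + 1) y F h) :
    Compat n w 0 (y + 1) F h where
  cur i _ h2 := H.nxt i (by omega)
  nxt i h1 := absurd h1 (by omega)
  fre i _ := H.far i (y + 1 + 1) (by omega)
  far i j hj := H.far i j (by omega)
  padl := H.padl
  padr := H.padr

/-- the three new profiles -/
def prL (w x : ℕ) (h : ℕ → Bool) (k : ℕ) : Bool := if k = x + w + 1 then false else h k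

/-- profile after the triangle pointing up -/
def prU (w x : ℕ) (h : ℕ → Bool) (k : ℕ) : Bool :=
  if k = x + w + 1 ∨ k = x + w + 2 then true else h k

/-- profile after the triangle pointing down -/
def prD (w x : ℕ) (h : ℕ → Bool) (k : ℕ) : Bool :=
  if k = x + w + 1 ∨ k = x + w then true else h k

lemma compat_L {n w x y : ℕ} {F : Set (ℕ × ℕ)} {h : ℕ → Bool} (H : Compat n w x y F h)
    (hx : x ≤ n) : Compat n w (x + 1) y F (prL w x h) where
  cur i h1 h2 := by
    rw [prL, if_neg (by omega)]
    exact H.cur i (by omega) h2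
  nxt i h1 := by
    by_cases hi : i = x
    · subst hi
      rw [prL, if_pos rfl]
      simpa using H.fre i le_rfl
    · rw [prL, if_neg (by omega)]
      exact H.nxt i (by omega)
  fre i h1 := H.fre i (by omega)
  far := H.far
  padl := by
    rw [prL, if_neg (by omega)]
    exact H.padl
  padr := by
    rw [prL, if_neg (by omega)]
    exact H.padr

lemma compat_U {n w x y : ℕ} {F : Set (ℕ × ℕ)} {h : ℕ → Bool} (H : Compat n w x y F h)
    (hx : x < n) : Compat n w (x + 1) y (addU F x y) (prU w x h) where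
  cur i h1 h2 := by
    rw [mem_addU, H.cur i (by omega) h2, prU]
    by_cases hi : i = x + 1
    · subst hi
      rw [if_pos (by omega)]
      simp
    · rw [if_neg (by omega)]
      have h3 : ¬ ((i, y) = (x, y) ∨ (i, y) = (x + 1, y) ∨ (i, y) = (x, y + 1)) := by
        simp only [Prod.mk.injEq]
        omega
      simp only [h3, or_false]
  nxt i h1 := by
    rw [mem_addU, prU]
    by_cases hi : i = x
    · subst hi
      rw [if_pos (by omega)]
      simp
    · rw [if_neg (by omega), H.nxt i (by omega)]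
      have h3 : ¬ ((i, y + 1) = (x, y) ∨ (i, y + 1) = (x + 1, y) ∨ (i, y + 1) = (x, y + 1)) := by
        simp only [Prod.mk.injEq]
        omega
      simp only [h3, or_false]
  fre i h1 := by
    rw [mem_addU]
    have := H.fre i (by omega)
    simp only [Prod.mk.injEq, this, false_or]
    omega
  far i j hj := by
    rw [mem_addU]
    have := H.far i j hj
    simp only [Prod.mk.injEq, this, false_or]
    omega
  padl := by
    rw [prU, if_neg (by omega)]
    exact H.padl
  padr := by
    rw [prU, if_neg (by omega)]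
    exact H.padr

lemma compat_D {n w x y : ℕ} {F : Set (ℕ × ℕ)} {h : ℕ → Bool} (H : Compat n w x y F h)
    (hx : x ≤ n) (hx1 : 1 ≤ x) : Compat n w (x + 1) y (addD F x y) (prD w x h) where
  cur i h1 h2 := by
    rw [mem_addD hx1, H.cur i (by omega) h2, prD, if_neg (by omega)]
    have h3 : ¬ ((i, y) = (x, y) ∨ (i, y) = (x - 1, y + 1) ∨ (i, y) = (x, y + 1)) := by
      simp only [Prod.mk.injEq]
      omega
    simp only [h3, or_false]
  nxt i h1 := by
    rw [mem_addD hx1, prD]
    by_cases hi : i = x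
    · subst hi
      rw [if_pos (by omega)]
      simp
    · by_cases hi' : i = x - 1
      · subst hi'
        rw [if_pos (by omega)]
        simp
      · rw [if_neg (by omega), H.nxt i (by omega)]
        have h3 : ¬ ((i, y + 1) = (x, y) ∨ (i, y + 1) = (x - 1, y + 1) ∨
            (i, y + 1) = (x, y + 1)) := by
          simp only [Prod.mk.injEq]
          omega
        simp only [h3, or_false]
  fre i h1 := by
    rw [mem_addD hx1]
    have := H.fre i (by omega)
    simp only [Prod.mk.injEq, this, false_or]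
    omega
  far i j hj := by
    rw [mem_addD hx1]
    have := H.far i j hj
    simp only [Prod.mk.injEq, this, false_or]
    omega
  padl := by
    rw [prD, if_neg (by omega)]
    exact H.padl
  padr := by
    rw [prD, if_neg (by omega)]
    exact H.padr

/-- The potential of a profile at column `x`. -/
noncomputable def Phi (n w : ℕ) (g : ℕ → ℝ) (M : ℕ → ℕ → ℝ) (x : ℕ) (h : ℕ → Bool) : ℝ :=
  (∏ i ∈ range x, g (win h i w)) * M (win h x (w + 1)) (win h (x + w + 1) w) *
    ∏ i ∈ Ico (x + w + 2) (n + w + 3), g (win h i w)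

/-- The factor of the potential not touched by a step. -/
noncomputable def Qf (n w : ℕ) (g : ℕ → ℝ) (x : ℕ) (h : ℕ → Bool) : ℝ :=
  (∏ i ∈ range x, g (win h i w)) * ∏ i ∈ Ico (x + w + 3) (n + w + 3), g (win h i w)

lemma Phi_cur {n w : ℕ} {g : ℕ → ℝ} {M : ℕ → ℕ → ℝ} {x : ℕ} {h : ℕ → Bool} (hx : x ≤ n) :
    Phi n w g M x h = Qf n w g x h * (M (2 * win h x w + (h (x + w)).toNat)
      (((h (x + w + 1)).toNat * 2 ^ w + win h (x + w + 2) w) / 2) * g (win h (x + w + 2) w)) := by
  rw [Phi, Qf, Finset.prod_eq_prod_Ico_succ_bot (by omega : x + w + 2 < n + w + 3)]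
  rw [win_init h (x + w + 1) w, win_head h (x + w + 1) w, win]
  ring

lemma Phi_next {n w : ℕ} {g : ℕ → ℝ} {M : ℕ → ℕ → ℝ} {x : ℕ} {h h' : ℕ → Bool}
    (H : ∀ k, k < x + w ∨ x + w + 2 < k → h' k = h k) :
    Phi n w g M (x + 1) h' = Qf n w g x h * (g (win h x w) *
      M (2 * ((2 * win h x w + (h' (x + w)).toNat) % 2 ^ w) + (h' (x + w + 1)).toNat)
        (win h' (x + w + 2) w)) := by
  have e1 : ∏ i ∈ range (x + 1), g (win h' i w) =
      (∏ i ∈ range x, g (win h i w)) * g (win h x w) := by
    rw [Finset.prod_range_succ]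
    congr 1
    · apply Finset.prod_congr rfl
      intro i hi
      rw [Finset.mem_range] at hi
      rw [win_congr (fun j h1 h2 => H j (Or.inl (by omega)))]
    · rw [win_congr (fun j h1 h2 => H j (Or.inl (by omega)))]
  have e2 : ∏ i ∈ Ico (x + 1 + w + 2) (n + w + 3), g (win h' i w) =
      ∏ i ∈ Ico (x + w + 3) (n + w + 3), g (win h i w) := by
    rw [show x + 1 + w + 2 = x + w + 3 by ring]
    apply Finset.prod_congr rfl
    intro i hi
    rw [Finset.mem_Ico] at hi
    rw [win_congr (fun j h1 h2 => H j (Or.inr (by omega)))]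
  have e3 : win h' (x + 1) (w + 1) =
      2 * ((2 * win h x w + (h' (x + w)).toNat) % 2 ^ w) + (h' (x + w + 1)).toNat := by
    rw [win, win_tail h' x w, win, win_congr (h := h') (h' := h) (i := x) (m := w)
      (fun j h1 h2 => H j (Or.inl (by omega))), show x + 1 + w = x + w + 1 by ring]
  rw [Phi, Qf, e1, e2, e3, show x + 1 + w + 1 = x + w + 2 by ring]
  ring

/-- The sum over the three moves in the local inequality. -/
noncomputable def locSum (w : ℕ) (M : ℕ → ℕ → ℝ) (s p a r : ℕ) : ℝ :=
  M (2 * ((2 * s + p) % 2 ^ w)) r +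
    (if a = 0 ∧ p = 0 then M (2 * ((2 * s + 1) % 2 ^ w) + 1) r else 0) +
    (if a = 0 ∧ r < 2 ^ (w - 1) then M (2 * ((2 * s + p) % 2 ^ w) + 1) (r + 2 ^ (w - 1)) else 0)

lemma toNat_eq_zero {b : Bool} : b.toNat = 0 ↔ b = false := by cases b <;> simp

lemma Phi_L {n w : ℕ} {g : ℕ → ℝ} {M : ℕ → ℕ → ℝ} {x : ℕ} {h : ℕ → Bool} :
    Phi n w g M (x + 1) (prL w x h) = Qf n w g x h * (g (win h x w) *
      M (2 * ((2 * win h x w + (h (x + w)).toNat) % 2 ^ w)) (win h (x + w + 2) w)) := by
  rw [Phi_next (h := h) (h' := prL w x h)]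
  · have h1 : prL w x h (x + w) = h (x + w) := by rw [prL, if_neg (by omega)]
    have h2 : prL w x h (x + w + 1) = false := by rw [prL, if_pos rfl]
    have h3 : win (prL w x h) (x + w + 2) w = win h (x + w + 2) w :=
      win_congr (fun j h1 h2 => by rw [prL, if_neg (by omega)])
    rw [h1, h2, h3]
    simp
  · intro k hk
    rw [prL, if_neg (by omega)]

lemma Phi_D {n w : ℕ} {g : ℕ → ℝ} {M : ℕ → ℕ → ℝ} {x : ℕ} {h : ℕ → Bool} :
    Phi n w g M (x + 1) (prD w x h) = Qf n w g x h * (g (win h x w) *
      M (2 * ((2 * win h x w + 1) % 2 ^ w) + 1) (win h (x + w + 2) w)) := by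
  rw [Phi_next (h := h) (h' := prD w x h)]
  · have h1 : prD w x h (x + w) = true := by rw [prD, if_pos (by omega)]
    have h2 : prD w x h (x + w + 1) = true := by rw [prD, if_pos (by omega)]
    have h3 : win (prD w x h) (x + w + 2) w = win h (x + w + 2) w :=
      win_congr (fun j h1 h2 => by rw [prD, if_neg (by omega)])
    rw [h1, h2, h3]
    simp
  · intro k hk
    rw [prD, if_neg (by omega)]

lemma Phi_U {n w : ℕ} (hw : 1 ≤ w) {g : ℕ → ℝ} {M : ℕ → ℕ → ℝ} {x : ℕ} {h : ℕ → Bool}
    (hh : h (x + w + 2) = false) :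
    Phi n w g M (x + 1) (prU w x h) = Qf n w g x h * (g (win h x w) *
      M (2 * ((2 * win h x w + (h (x + w)).toNat) % 2 ^ w) + 1)
        (win h (x + w + 2) w + 2 ^ (w - 1))) := by
  rw [Phi_next (h := h) (h' := prU w x h)]
  · have h1 : prU w x h (x + w) = h (x + w) := by rw [prU, if_neg (by omega)]
    have h2 : prU w x h (x + w + 1) = true := by rw [prU, if_pos (by omega)]
    have h3 : win (prU w x h) (x + w + 2) w = win h (x + w + 2) w + 2 ^ (w - 1) := by
      obtain ⟨v, rfl⟩ : ∃ v, w = v + 1 := ⟨w - 1, by omega⟩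
      rw [win_head, win_head h, hh]
      have h4 : prU (v + 1) x h (x + (v + 1) + 2) = true := by rw [prU, if_pos (by omega)]
      have h5 : win (prU (v + 1) x h) (x + (v + 1) + 2 + 1) v =
          win h (x + (v + 1) + 2 + 1) v :=
        win_congr (fun j h1 h2 => by rw [prU, if_neg (by omega)])
      rw [h4, h5]
      simp
      ring
    rw [h1, h2, h3]
    simp
  · intro k hk
    rw [prU, if_neg (by omega)]

lemma win_half {w : ℕ} (hw : 1 ≤ w) (h : ℕ → Bool) (i : ℕ) :
    win h i w < 2 ^ (w - 1) ↔ h i = false := by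
  obtain ⟨v, rfl⟩ : ∃ v, w = v + 1 := ⟨w - 1, by omega⟩
  rw [win_head]
  have := win_lt h (i + 1) v
  cases h i <;> simp <;> omega

/-- Rows, for a relation `Rel` which will be `≤` or `≥`. -/
theorem row_bound {Rel : ℝ → ℝ → Prop}
    (hadd : ∀ a b c d, Rel a b → Rel c d → Rel (a + c) (b + d))
    (hmul : ∀ k a b, 0 ≤ k → Rel a b → Rel (k * a) (k * b))
    (htrans : ∀ a b c, Rel a b → Rel b c → Rel a c) (hrefl : ∀ a, Rel a a)
    {n w y : ℕ} (hw : 1 ≤ w) (hy : y < n) {g : ℕ → ℝ} {M : ℕ → ℕ → ℝ} {c κ : ℝ}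
    (hg : ∀ s, s < 2 ^ w → 0 ≤ g s) (hc : 0 ≤ c) (hκ : 0 ≤ κ)
    (hloc : ∀ s p a r, s < 2 ^ w → p < 2 → a < 2 → r < 2 ^ w →
      Rel (g s * locSum w M s p a r) (c * (M (2 * s + p) ((a * 2 ^ w + r) / 2) * g r)))
    (hend : ∀ F h, Compat n w (n + 1) y F h →
      Rel (np (reg n (n + 1) y) F) (κ * Phi n w g M (n + 1) h)) :
    ∀ m x, x + m = n + 1 → ∀ F h, Compat n w x y F h →
      Rel (np (reg n x y) F) (κ * c ^ m * Phi n w g M x h) := by
  classical
  intro m
  induction m with
  | zero =>
    intro x hx F h H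
    have : x = n + 1 := by omega
    subst this
    simpa using hend F h H
  | succ m ih =>
    intro x hx F h H
    have hxn : x ≤ n := by omega
    set s := win h x w with hs
    set p := (h (x + w)).toNat with hp
    set a := (h (x + w + 1)).toNat with ha
    set r := win h (x + w + 2) w with hr
    have hQ : 0 ≤ Qf n w g x h := by
      apply mul_nonneg
      · exact Finset.prod_nonneg fun i _ => hg _ (win_lt _ _ _)
      · exact Finset.prod_nonneg fun i _ => hg _ (win_lt _ _ _)
    have hk : 0 ≤ κ * c ^ m := mul_nonneg hκ (pow_nonneg hc m)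
    -- the three moves
    have rL := ih (x + 1) (by omega) F (prL w x h) (compat_L H hxn)
    rw [Phi_L] at rL
    have hxy : (x, y) ∉ F ↔ a = 0 := by
      rw [H.cur x le_rfl hxn, ha, toNat_eq_zero]
      simp
    have hfre : (x, y + 1) ∉ F := H.fre x le_rfl
    have rD : Rel ((if 1 ≤ x ∧ (x, y) ∉ F ∧ (x - 1, y + 1) ∉ F ∧ (x, y + 1) ∉ F then
        np (reg n (x + 1) y) (addD F x y) else 0 : ℕ) : ℝ)
        (κ * c ^ m * (Qf n w g x h * (g s * (if a = 0 ∧ p = 0 then
          M (2 * ((2 * s + 1) % 2 ^ w) + 1) r else 0)))) := by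
      by_cases h1 : 1 ≤ x ∧ (x, y) ∉ F ∧ (x - 1, y + 1) ∉ F ∧ (x, y + 1) ∉ F
      · have h2 : a = 0 ∧ p = 0 := by
          refine ⟨hxy.1 h1.2.1, ?_⟩
          rw [hp, toNat_eq_zero]
          have := h1.2.2.1
          rw [H.nxt (x - 1) (by omega), show x - 1 + w + 1 = x + w by omega] at this
          simpa using this
        rw [if_pos h1, if_pos h2]
        have := ih (x + 1) (by omega) _ (prD w x h) (compat_D H hxn h1.1)
        rw [Phi_D] at this
        exact this
      · have h2 : ¬ (a = 0 ∧ p = 0) := by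
          rintro ⟨h2, h3⟩
          apply h1
          rw [hp, toNat_eq_zero] at h3
          have hx1 : 1 ≤ x := by
            by_contra hx0
            have : x = 0 := by omega
            subst this
            have := H.padl
            rw [zero_add] at h3
            rw [h3] at this
            simp at this
          refine ⟨hx1, hxy.2 h2, ?_, hfre⟩
          rw [H.nxt (x - 1) (by omega), show x - 1 + w + 1 = x + w by omega, h3]
          simp
        rw [if_neg h1, if_neg h2]
        simp only [mul_zero, Nat.cast_zero]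
        exact hrefl 0
    have rU : Rel ((if x < n ∧ (x, y) ∉ F ∧ (x + 1, y) ∉ F ∧ (x, y + 1) ∉ F then
        np (reg n (x + 1) y) (addU F x y) else 0 : ℕ) : ℝ)
        (κ * c ^ m * (Qf n w g x h * (g s * (if a = 0 ∧ r < 2 ^ (w - 1) then
          M (2 * ((2 * s + p) % 2 ^ w) + 1) (r + 2 ^ (w - 1)) else 0)))) := by
      by_cases h1 : x < n ∧ (x, y) ∉ F ∧ (x + 1, y) ∉ F ∧ (x, y + 1) ∉ F
      · have h3 : h (x + w + 2) = false := by
          have := h1.2.2.1
          rw [H.cur (x + 1) (by omega) (by omega), show x + 1 + w + 1 = x + w + 2 by ring] at this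
          simpa using this
        have h2 : a = 0 ∧ r < 2 ^ (w - 1) := ⟨hxy.1 h1.2.1, (win_half hw _ _).2 h3⟩
        rw [if_pos h1, if_pos h2]
        have := ih (x + 1) (by omega) _ (prU w x h) (compat_U H h1.1)
        rw [Phi_U hw h3] at this
        exact this
      · have h2 : ¬ (a = 0 ∧ r < 2 ^ (w - 1)) := by
          rintro ⟨h2, h3⟩
          apply h1
          rw [hr, win_half hw] at h3
          have hx1 : x < n := by
            by_contra hx0
            have : x = n := by omega
            subst this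
            have := H.padr
            rw [h3] at this
            simp at this
          refine ⟨hx1, hxy.2 h2, ?_, hfre⟩
          rw [H.cur (x + 1) (by omega) (by omega), show x + 1 + w + 1 = x + w + 2 by ring, h3]
          simp
        rw [if_neg h1, if_neg h2]
        simp only [mul_zero, Nat.cast_zero]
        exact hrefl 0
    have rsum := hadd _ _ _ _ (hadd _ _ _ _ rL rD) rU
    have hnp := congrArg (Nat.cast : ℕ → ℝ) (scan_step hxn hy F)
    push_cast at hnp rsum
    rw [hnp]
    refine htrans _ _ _ rsum ?_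
    have hl := hmul (κ * c ^ m * Qf n w g x h) _ _ (mul_nonneg hk hQ)
      (hloc s p a r (win_lt _ _ _) (toNat_lt _) (toNat_lt _) (win_lt _ _ _))
    have e1 : κ * c ^ m * Qf n w g x h * (g s * locSum w M s p a r) =
        κ * c ^ m * (Qf n w g x h * (g s * M (2 * ((2 * s + p) % 2 ^ w)) r)) +
        κ * c ^ m * (Qf n w g x h * (g s * (if a = 0 ∧ p = 0 then
          M (2 * ((2 * s + 1) % 2 ^ w) + 1) r else 0))) +
        κ * c ^ m * (Qf n w g x h * (g s * (if a = 0 ∧ r < 2 ^ (w - 1) then
          M (2 * ((2 * s + p) % 2 ^ w) + 1) (r + 2 ^ (w - 1)) else 0))) := by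
      rw [locSum]
      ring
    have e2 : κ * c ^ m * Qf n w g x h * (c * (M (2 * s + p) ((a * 2 ^ w + r) / 2) * g r)) =
        κ * c ^ (m + 1) * Phi n w g M x h := by
      rw [Phi_cur hxn]
      ring
    rw [e1, e2] at hl
    exact hl

end KingTri
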